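import Pool.Agent.TH220.HG.Fin

/-! Near-optimal lattices have many vectors in balls and shells (for MP_ef2672_gt). -/

open Matrix Filter
open scoped Topology

namespace Pool.Agent.TH220.HG

open Pool.Agent.H160R3.Herm

theorem hermite_pos' {n : ℕ} (hn : 0 < n) : 0 < hermite n :=
  one_pos.trans_le (one_le_hermite hn)

theorem ball_count {n : ℕ} (hn : 0 < n) {A : Matrix (Fin n) (Fin n) ℝ} (hA : A.det ≠ 0) {θ : ℝ}
    (hθ : 0 < θ) (h : θ * hermite n ≤ gam A) {t : ℝ} (ht : 1 < t) :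
    (θ * t) ^ ((n : ℝ) / 2) ≤ (short A t).ncard :=
  count_of hn (mul_nonneg hθ.le (by linarith)) (Nat.cast_nonneg _) (hermite_pos' hn) h
    (sub_ineq hn hA ht) (by linarith)

theorem shell_count {n : ℕ} (hn : 0 < n) {A : Matrix (Fin n) (Fin n) ℝ} (hA : A.det ≠ 0) {θ : ℝ}
    (hθ : 0 < θ) (h : θ * hermite n ≤ gam A) :
    (θ * 2) ^ ((n : ℝ) / 2) ≤ ((shell A 1 2).ncard + 1 : ℝ) * (4 * (n + 1) * (n + 5).choose 4) :=
  count_of hn (by positivity) (by positivity) (hermite_pos' hn) h (gap_touch hn hA) (by norm_num)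

theorem shell_count_of {n : ℕ} (hn : 0 < n) {x c g h θ : ℝ} (hx : 0 ≤ x)
    (hθ : 0 < θ) (hh : 0 < h) (h1 : θ * h ≤ g) (h2 : g ≤ x ^ ((2 : ℝ) / n) * (2 : ℝ) ^ (-c) * h) :
    (θ * (2 : ℝ) ^ c) ^ ((n : ℝ) / 2) ≤ x := by
  apply count_of hn (by positivity) hx hh h1 _ (by positivity)
  have e : (2 : ℝ) ^ c * (2 : ℝ) ^ (-c) = 1 := by
    rw [← Real.rpow_add two_pos]; simp
  calc (2 : ℝ) ^ c * g ≤ (2 : ℝ) ^ c * (x ^ ((2 : ℝ) / n) * (2 : ℝ) ^ (-c) * h) :=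
        mul_le_mul_of_nonneg_left h2 (by positivity)
    _ = ((2 : ℝ) ^ c * (2 : ℝ) ^ (-c)) * (x ^ ((2 : ℝ) / n) * h) := by ring
    _ = _ := by rw [e, one_mul]

end Pool.Agent.TH220.HG
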