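import Pool.Agent.TH220.HG.Gap

/-! Numerical consequences (for MP_ef2672_gt). -/

open Matrix Filter
open scoped Topology

namespace Pool.Agent.TH220.HG

open Pool.Agent.H160R3.Herm Pool.Agent.TH220.NT

theorem num_B : ∀ᶠ n : ℕ in atTop, ∀ A : Matrix (Fin n) (Fin n) ℝ, A.det ≠ 0 →
    gam A ≤ ((shell A ((201 / 200) ^ 2) ((6 / 5) ^ 2)).ncard + 1 : ℝ) ^ ((2 : ℝ) / n) *
      (2 : ℝ) ^ (-(1 / 10) : ℝ) * hermite n := by
  have h : ∀ᶠ n : ℕ in atTop, ∀ A : Matrix (Fin n) (Fin n) ℝ, A.det ≠ 0 →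
      gam A ≤ ((shell A ((201 / 200) ^ 2) ((6 / 5) ^ 2)).ncard + 1 : ℝ) ^ ((2 : ℝ) / n) *
        (2 : ℝ) ^ (-(2 * (1 / 20)) : ℝ) * hermite n := by
    apply gap_num (k := 3) (J := 100) (m := 16) (by norm_num) (by norm_num) (by norm_num)
      (by norm_num) (by norm_num) (fun i => if i = 1 then 22 / 1000 else 7 / 10000)
      (v0 := 22 / 100000)
    · intro i hi
      rw [Finset.mem_Ico] at hi
      obtain rfl | rfl : i = 1 ∨ i = 2 := by omega
      · unfold cosB; norm_num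
      · unfold cosB; norm_num
    · norm_num
    · unfold cosB; norm_num
    · have e : ∑ i ∈ Finset.Ico 1 3, G ((fun i => if i = 1 then (22 / 1000 : ℝ) else 7 / 10000) i)
          = G (22 / 1000) + G (7 / 10000) := by
        rw [Finset.sum_Ico_succ_top (by norm_num), Finset.sum_Ico_succ_top (by norm_num)]
        simp
      rw [e]
      have h1 := G_le (v := 22 / 1000) (by norm_num) (a := 45) (b := 248) (by norm_num)
        (by norm_num)
      have h2 := G_le (v := 7 / 10000) (by norm_num) (a := 2) (b := 21) (by norm_num) (by norm_num)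
      have h3 := G_le (v := 22 / 100000) (by norm_num) (a := 5) (b := 61) (by norm_num)
        (by norm_num)
      have h4 := log_six_five
      have h5 := Real.log_two_gt_d9
      push_cast at h1 h2 h3 ⊢
      linarith
  have e : (-(2 * (1 / 20)) : ℝ) = -(1 / 10) := by norm_num
  rw [e] at h
  exact h

theorem num_C : ∀ᶠ n : ℕ in atTop, ∀ A : Matrix (Fin n) (Fin n) ℝ, A.det ≠ 0 →
    gam A ≤ ((shell A ((1001 / 1000) ^ 2) ((7 / 6) ^ 2)).ncard + 1 : ℝ) ^ ((2 : ℝ) / n) *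
      (2 : ℝ) ^ (-(1 / 100) : ℝ) * hermite n := by
  have h : ∀ᶠ n : ℕ in atTop, ∀ A : Matrix (Fin n) (Fin n) ℝ, A.det ≠ 0 →
      gam A ≤ ((shell A ((1001 / 1000) ^ 2) ((7 / 6) ^ 2)).ncard + 1 : ℝ) ^ ((2 : ℝ) / n) *
        (2 : ℝ) ^ (-(2 * (1 / 200)) : ℝ) * hermite n := by
    apply gap_num (k := 3) (J := 1000) (m := 57) (by norm_num) (by norm_num) (by norm_num)
      (by norm_num) (by norm_num) (fun i => if i = 1 then 28 / 1000 else 23 / 10000)
      (v0 := 1 / 160000)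
    · intro i hi
      rw [Finset.mem_Ico] at hi
      obtain rfl | rfl : i = 1 ∨ i = 2 := by omega
      · unfold cosB; norm_num
      · unfold cosB; norm_num
    · norm_num
    · unfold cosB; norm_num
    · have e : ∑ i ∈ Finset.Ico 1 3, G ((fun i => if i = 1 then (28 / 1000 : ℝ) else 23 / 10000) i)
          = G (28 / 1000) + G (23 / 10000) := by
        rw [Finset.sum_Ico_succ_top (by norm_num), Finset.sum_Ico_succ_top (by norm_num)]
        simp
      rw [e]
      have h1 := G_le (v := 28 / 1000) (by norm_num) (a := 25) (b := 129) (by norm_num)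
        (by norm_num)
      have h2 := G_le (v := 23 / 10000) (by norm_num) (a := 5) (b := 44) (by norm_num)
        (by norm_num)
      have h3 := G_le (v := 1 / 160000) (by norm_num) (a := 1) (b := 18) (by norm_num)
        (by norm_num)
      have h4 := log_seven_six
      have h5 := Real.log_two_gt_d9
      push_cast at h1 h2 h3 ⊢
      linarith
  have e : (-(2 * (1 / 200)) : ℝ) = -(1 / 100) := by norm_num
  rw [e] at h
  exact h

theorem num_A : ∀ᶠ n : ℕ in atTop, ∀ A : Matrix (Fin n) (Fin n) ℝ, A.det ≠ 0 →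
    gam A ≤ ((shell A ((201 / 200) ^ 2) 2).ncard + 1 : ℝ) ^ ((2 : ℝ) / n) *
      (2 : ℝ) ^ (-(9736 / 10000) : ℝ) * hermite n := by
  have h2 : (√2 : ℝ) ^ 2 = 2 := Real.sq_sqrt (by norm_num)
  have hlog : Real.log (√2) = 1 / 2 * Real.log 2 := by
    rw [Real.log_sqrt (by norm_num)]; ring
  have h : ∀ᶠ n : ℕ in atTop, ∀ A : Matrix (Fin n) (Fin n) ℝ, A.det ≠ 0 →
      gam A ≤ ((shell A ((201 / 200) ^ 2) (√2 ^ 2)).ncard + 1 : ℝ) ^ ((2 : ℝ) / n) *
        (2 : ℝ) ^ (-(2 * (4868 / 10000)) : ℝ) * hermite n := by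
    apply gap_num (k := 2) (J := 100) (m := 4) (by norm_num) _ (by norm_num)
      (by norm_num) _ (fun _ => 1 / 40000) (v0 := 22 / 100000)
    · intro i hi
      rw [Finset.mem_Ico] at hi
      obtain rfl : i = 1 := by omega
      unfold cosB
      rw [h2]
      norm_num
    · norm_num
    · unfold cosB; norm_num
    · have e : ∑ i ∈ Finset.Ico 1 2, G ((fun (_ : ℕ) => (1 / 40000 : ℝ)) i) = G (1 / 40000) := by
        rw [Finset.sum_Ico_succ_top (by norm_num)]
        simp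
      rw [e, hlog]
      have h1 := G_le (v := 1 / 40000) (by norm_num) (a := 1) (b := 16) (by norm_num)
        (by norm_num)
      have h3 := G_le (v := 22 / 100000) (by norm_num) (a := 5) (b := 61) (by norm_num)
        (by norm_num)
      have h5 := Real.log_two_gt_d9
      push_cast at h1 h3 ⊢
      linarith
    · apply Real.lt_sqrt_of_sq_lt
      norm_num
    · rw [h2]
      norm_num
  have e : (-(2 * (4868 / 10000)) : ℝ) = -(9736 / 10000) := by norm_num
  rw [e, h2] at h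
  exact h

/-- from a comparison with `γ_n` to a count -/
theorem count_of {n : ℕ} (hn : 0 < n) {θ c x g h : ℝ} (hθ : 0 ≤ θ * c) (hx : 0 ≤ x)
    (hh : 0 < h) (h1 : θ * h ≤ g) (h2 : c * g ≤ x ^ ((2 : ℝ) / n) * h) (hc : 0 ≤ c) :
    (θ * c) ^ ((n : ℝ) / 2) ≤ x := by
  have hn' : (0 : ℝ) < n := by exact_mod_cast hn
  have h3 : (θ * c) * h ≤ x ^ ((2 : ℝ) / n) * h := by
    calc (θ * c) * h = c * (θ * h) := by ring
      _ ≤ c * g := mul_le_mul_of_nonneg_left h1 hc
      _ ≤ _ := h2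
  have h4 := le_of_mul_le_mul_right h3 hh
  have h5 := Real.rpow_le_rpow hθ h4 (show (0 : ℝ) ≤ (n : ℝ) / 2 by positivity)
  rw [← Real.rpow_mul hx] at h5
  have e : (2 : ℝ) / n * (n / 2) = 1 := by field_simp
  rwa [e, Real.rpow_one] at h5

/-- the numerical comparison with `1 / (2 π e)` -/
theorem num_pi : (2 : ℝ) ^ ((5 : ℝ) / 24) / 2 * (1 / Real.pi ^ 2 + 1 / 1000000) <
    1 / (2 * Real.pi * Real.exp 1) := by
  have h1 : (2 : ℝ) ^ ((5 : ℝ) / 24) ≤ 11554 / 10000 := by
    have e : (2 : ℝ) ^ ((5 : ℝ) / 24) = ((2 : ℝ) ^ (5 : ℝ)) ^ ((1 : ℝ) / 24) := by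
      rw [← Real.rpow_mul (by norm_num)]
      norm_num
    rw [e]
    have h2 : (2 : ℝ) ^ (5 : ℝ) ≤ (11554 / 10000 : ℝ) ^ (24 : ℝ) := by
      rw [show (5 : ℝ) = ((5 : ℕ) : ℝ) by norm_num, show (24 : ℝ) = ((24 : ℕ) : ℝ) by norm_num,
        Real.rpow_natCast, Real.rpow_natCast]
      norm_num
    refine (Real.rpow_le_rpow (by positivity) h2 (by norm_num)).trans (le_of_eq ?_)
    rw [← Real.rpow_mul (by norm_num)]
    norm_num
  have hpi := Real.pi_gt_d6
  have hpi' := Real.pi_lt_d6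
  have he := Real.exp_one_lt_d9
  have he0 := Real.exp_pos 1
  have hp0 := Real.pi_pos
  have hpp : Real.pi ^ 2 ≤ 10 := by nlinarith
  have h3 : (1 / Real.pi ^ 2 + 1 / 1000000) ≤ (1 / Real.pi ^ 2) * (100001 / 100000) := by
    have : (1 : ℝ) / 1000000 ≤ (1 / Real.pi ^ 2) * (1 / 100000) := by
      rw [div_mul_div_comm, one_mul]
      apply one_div_le_one_div_of_le (by positivity)
      linarith
    linarith
  calc (2 : ℝ) ^ ((5 : ℝ) / 24) / 2 * (1 / Real.pi ^ 2 + 1 / 1000000)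
      ≤ (11554 / 10000) / 2 * ((1 / Real.pi ^ 2) * (100001 / 100000)) := by
        apply mul_le_mul _ h3 (by positivity) (by positivity)
        linarith
    _ < _ := by
        rw [lt_div_iff₀ (by positivity)]
        have e : (11554 / 10000 : ℝ) / 2 * ((1 / Real.pi ^ 2) * (100001 / 100000)) *
            (2 * Real.pi * Real.exp 1) =
            (11554 / 10000 * (100001 / 100000)) * Real.exp 1 / Real.pi := by
          field_simp
        rw [e, div_lt_one hp0]
        nlinarith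

/-- the believed upper bound `1/(2πe)` for lattices with few vectors in a shell -/
theorem fam_touch : ∀ᶠ n : ℕ in atTop, ∀ A : Matrix (Fin n) (Fin n) ℝ, A.det ≠ 0 →
    ((shell A 1 2).ncard + 1 : ℝ) ≤ (2 : ℝ) ^ (104 / 1000 * n : ℝ) →
      gam A / n < 1 / (2 * Real.pi * Real.exp 1) := by
  filter_upwards [eventually_gt_atTop 0, poly_le (ε := 1 / 10000) (by norm_num),
    Pool.Agent.W259.GP.hermite_bound Pool.Agent.W259.GP.s_main (1 / 1000000) (by norm_num)]
    with n hn hP hH A hA hκ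
  have hn' : (0 : ℝ) < n := by exact_mod_cast hn
  have h1 := gap_touch hn hA
  have h2 : (((shell A 1 2).ncard + 1 : ℝ) * (4 * (n + 1) * (n + 5).choose 4)) ^ ((2 : ℝ) / n) ≤
      (2 : ℝ) ^ ((5 : ℝ) / 24) := by
    calc _ ≤ ((2 : ℝ) ^ (104 / 1000 * n : ℝ) * (2 : ℝ) ^ (1 / 10000 * n : ℝ)) ^ ((2 : ℝ) / n) := by
          apply Real.rpow_le_rpow (by positivity) _ (by positivity)
          exact mul_le_mul hκ hP (by positivity) (by positivity)
      _ = (2 : ℝ) ^ (2 * (104 / 1000 + 1 / 10000) : ℝ) := by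
          rw [← Real.rpow_add two_pos, ← Real.rpow_mul two_pos.le]
          congr 1
          field_simp
      _ ≤ _ := Real.rpow_le_rpow_of_exponent_le (by norm_num) (by norm_num)
  have hH' : hermite n / n ≤ 1 / Real.pi ^ 2 + 1 / 1000000 := hH
  calc gam A / n ≤ ((2 : ℝ) ^ ((5 : ℝ) / 24) / 2) * (hermite n / n) := by
        have h3 : 2 * gam A ≤ (2 : ℝ) ^ ((5 : ℝ) / 24) * hermite n :=
          h1.trans (mul_le_mul_of_nonneg_right h2 (hermite_nonneg' n))
        rw [mul_div_assoc', div_le_div_iff_of_pos_right hn']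
        linarith
    _ ≤ ((2 : ℝ) ^ ((5 : ℝ) / 24) / 2) * (1 / Real.pi ^ 2 + 1 / 1000000) :=
        mul_le_mul_of_nonneg_left hH' (by positivity)
    _ < _ := num_pi

theorem fam_A : ∀ᶠ n : ℕ in atTop, ∀ A : Matrix (Fin n) (Fin n) ℝ, A.det ≠ 0 →
    ((shell A ((201 / 200) ^ 2) 2).ncard + 1 : ℝ) ≤ (2 : ℝ) ^ (n / 11 : ℝ) →
      gam A / n < 1 / (2 * Real.pi * Real.exp 1) := by
  filter_upwards [eventually_gt_atTop 0, num_A,
    Pool.Agent.W259.GP.hermite_bound Pool.Agent.W259.GP.s_main (1 / 1000000) (by norm_num)]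
    with n hn hP hH A hA hκ
  have hn' : (0 : ℝ) < n := by exact_mod_cast hn
  have h1 := hP A hA
  have h2 : ((shell A ((201 / 200) ^ 2) 2).ncard + 1 : ℝ) ^ ((2 : ℝ) / n) *
      (2 : ℝ) ^ (-(9736 / 10000) : ℝ) ≤ (2 : ℝ) ^ ((5 : ℝ) / 24) / 2 := by
    calc _ ≤ ((2 : ℝ) ^ (n / 11 : ℝ)) ^ ((2 : ℝ) / n) * (2 : ℝ) ^ (-(9736 / 10000) : ℝ) := by
          apply mul_le_mul_of_nonneg_right _ (by positivity)
          exact Real.rpow_le_rpow (by positivity) hκ (by positivity)
      _ = (2 : ℝ) ^ (2 / 11 - 9736 / 10000 : ℝ) := by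
          rw [← Real.rpow_mul two_pos.le, ← Real.rpow_add two_pos]
          congr 1
          field_simp
          ring
      _ ≤ (2 : ℝ) ^ ((5 : ℝ) / 24 - 1) :=
          Real.rpow_le_rpow_of_exponent_le (by norm_num) (by norm_num)
      _ = _ := by rw [Real.rpow_sub two_pos, Real.rpow_one]
  have hH' : hermite n / n ≤ 1 / Real.pi ^ 2 + 1 / 1000000 := hH
  calc gam A / n ≤ ((2 : ℝ) ^ ((5 : ℝ) / 24) / 2) * (hermite n / n) := by
        have h3 : gam A ≤ ((2 : ℝ) ^ ((5 : ℝ) / 24) / 2) * hermite n :=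
          h1.trans (mul_le_mul_of_nonneg_right h2 (hermite_nonneg' n))
        rw [mul_div_assoc', div_le_div_iff_of_pos_right hn']
        exact h3
    _ ≤ ((2 : ℝ) ^ ((5 : ℝ) / 24) / 2) * (1 / Real.pi ^ 2 + 1 / 1000000) :=
        mul_le_mul_of_nonneg_left hH' (by positivity)
    _ < _ := num_pi

end Pool.Agent.TH220.HG
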