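import Pool.Agent.TH220.HG.Sub
import Pool.Agent.TH220.NT.Num
import Pool.Agent.W259.GP.Fin

/-! Lattices with few vectors in a shell (for MP_ef2672_gt). -/

open Matrix Filter
open scoped Topology

namespace Pool.Agent.TH220.HG

open Pool.Agent.H160R3.Herm Pool.Agent.TH220.NT
open Pool.Agent.H818R2 (IsPacking)

/-- the vectors `w` (in coordinates) with squared length strictly between `s` and `t` times the
minimum -/
def shell {n : ℕ} (A : Matrix (Fin n) (Fin n) ℝ) (s t : ℝ) : Set (Fin n → ℤ) :=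
  {w | s * minSq A < nsq A w ∧ nsq A w < t * minSq A}

theorem shell_finite {n : ℕ} {A : Matrix (Fin n) (Fin n) ℝ} (hA : A.det ≠ 0) (s t : ℝ) :
    (shell A s t).Finite :=
  (finite_lt hA (t * minSq A)).subset fun _ hw => hw.2

/-- the point `A w` -/
noncomputable def pt {n : ℕ} (A : Matrix (Fin n) (Fin n) ℝ) (w : Fin n → ℤ) :
    EuclideanSpace ℝ (Fin n) :=
  WithLp.toLp 2 (A.mulVec fun j => (w j : ℝ))

theorem dist_pt {n : ℕ} (A : Matrix (Fin n) (Fin n) ℝ) (x y : Fin n → ℤ) :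
    dist (pt A x) (pt A y) ^ 2 = nsq A (x - y) := by
  have h : (fun j => ((x - y) j : ℝ)) = (fun j => (x j : ℝ)) - (fun j => (y j : ℝ)) := by
    ext j; simp
  rw [EuclideanSpace.dist_eq, Real.sq_sqrt (Finset.sum_nonneg fun _ _ => sq_nonneg _)]
  unfold nsq
  rw [h, Matrix.mulVec_sub]
  refine Finset.sum_congr rfl fun i _ => ?_
  rw [Real.dist_eq, sq_abs]
  rfl

theorem pt_inj {n : ℕ} {A : Matrix (Fin n) (Fin n) ℝ} (hA : A.det ≠ 0) :
    Function.Injective (pt A) := by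
  intro x y h
  by_contra hne
  have h1 := nsq_pos hA (sub_ne_zero.2 hne)
  rw [← dist_pt, h, dist_self] at h1
  norm_num at h1

theorem short_le {n : ℕ} (hn : 0 < n) {A : Matrix (Fin n) (Fin n) ℝ} (hA : A.det ≠ 0) {α β : ℝ}
    (hα : 1 ≤ α) (hαβ : α < β) {k a m : ℕ} (hk : 1 ≤ k)
    (hclique : ∀ Q : Finset (EuclideanSpace ℝ (Fin n)),
      (∀ x ∈ Q, ∀ y ∈ Q, x ≠ y → 1 ≤ dist x y ∧ dist x y ≤ α) → Q.card ≤ a)
    (hm : β ^ 2 < (m + 1) * (β ^ 2 - (2 * α ^ 2 - 1 + 1 / k))) :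
    (short A (β ^ 2)).ncard + 1 ≤ ((shell A (α ^ 2) (β ^ 2)).ncard + 1) *
      ((∏ i ∈ Finset.Ico 1 k, 2 * codeMax (n + 1) (cosB α β i)) * (a + m).choose a) := by
  classical
  set D : ℕ := (∏ i ∈ Finset.Ico 1 k, 2 * codeMax (n + 1) (cosB α β i)) * (a + m).choose a with hD
  have hα0 : 0 < α := by linarith
  have hβ0 : 0 < β := by linarith
  have hmin := minSq_pos hn hA
  set l : ℝ := √(minSq A) with hl
  have hl0 : 0 < l := Real.sqrt_pos.2 hmin
  have hl2 : l ^ 2 = minSq A := Real.sq_sqrt hmin.le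
  have hfS := short_finite hA (β ^ 2)
  have hfK := shell_finite hA (α ^ 2) (β ^ 2)
  set R : (Fin n → ℤ) → (Fin n → ℤ) → Prop := fun x y => x - y ∈ shell A (α ^ 2) (β ^ 2) with hR
  have hRs : ∀ x y, R x y → R y x := by
    intro x y h
    have e : y - x = -(x - y) := by abel
    simp only [hR, shell, Set.mem_ofPred_eq] at h ⊢
    rw [e, nsq_neg]
    exact h
  have hR0 : ∀ y, R 0 y ↔ y ∈ shell A (α ^ 2) (β ^ 2) := by
    intro y
    simp only [hR, shell, Set.mem_ofPred_eq]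
    rw [zero_sub, nsq_neg]
  set F := hfS.toFinset with hF
  have hFm : ∀ x, x ∈ F ↔ x ≠ 0 ∧ nsq A x < β ^ 2 * minSq A := by
    intro x
    rw [hF, Set.Finite.mem_toFinset]
    rfl
  set K := hfK.toFinset with hK
  have hKm : ∀ x, x ∈ K ↔ x ∈ shell A (α ^ 2) (β ^ 2) := by
    intro x
    rw [hK, Set.Finite.mem_toFinset]
  set S := F.filter (fun w => w ∉ K) with hS
  have hD1 : 1 ≤ D := by
    rw [hD]
    apply Nat.mul_pos
    · apply Finset.prod_pos
      intro i _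
      have := codeMax_pos (n := n + 1) (Nat.succ_pos n) (cosB_lt hα hβ0 i)
      omega
    · exact Nat.choose_pos (Nat.le_add_right a m)
  have h1 : S.card ≤ (D - 1) * (K.card + 1) := by
    apply greedy R hRs S
    · intro Q hQS hQ
      set Q0 := insert (0 : Fin n → ℤ) Q with hQ0
      have hS0 : ∀ x ∈ S, x ≠ 0 ∧ nsq A x < β ^ 2 * minSq A ∧ ¬ R 0 x := by
        intro x hx
        rw [hS, Finset.mem_filter, hFm, hKm] at hx
        exact ⟨hx.1.1, hx.1.2, fun h => hx.2 ((hR0 x).1 h)⟩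
      have hind : ∀ x ∈ Q0, ∀ y ∈ Q0, x ≠ y → ¬ R x y := by
        intro x hx y hy hxy
        rw [hQ0, Finset.mem_insert] at hx hy
        rcases hx with hx | hx <;> rcases hy with hy | hy
        · exact absurd (hx.trans hy.symm) hxy
        · rw [hx]; exact (hS0 y (hQS hy)).2.2
        · rw [hy]; exact fun h => (hS0 x (hQS hx)).2.2 (hRs _ _ h)
        · exact hQ x hx y hy hxy
      have hsep : ∀ x y : Fin n → ℤ, x ≠ y → l ≤ dist (pt A x) (pt A y) := by
        intro x y hxy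
        have h2 : minSq A ≤ nsq A (x - y) := minSq_le A _ (sub_ne_zero.2 hxy)
        rw [← dist_pt, ← hl2] at h2
        exact (sq_le_sq₀ hl0.le dist_nonneg).1 h2
      have hpack : IsPacking (pt A '' (Q0 : Set (Fin n → ℤ))) (l / 2) := by
        rw [packing_iff (by positivity)]
        rintro _ ⟨x, hx, rfl⟩ _ ⟨y, hy, rfl⟩ hxy
        have := hsep x y (fun e => hxy (by rw [e]))
        linarith
      have h2 := deg_le hα hαβ hk hclique hm hpack
        (by
          rintro _ ⟨x, hx, rfl⟩ _ ⟨y, hy, rfl⟩ hxy ⟨c1, c2⟩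
          apply hind x hx y hy (fun e => hxy (by rw [e]))
          have d0 : 0 ≤ dist (pt A x) (pt A y) := dist_nonneg
          simp only [hR, shell, Set.mem_ofPred_eq]
          rw [← dist_pt, ← hl2, ← mul_pow, ← mul_pow]
          constructor
          · exact pow_lt_pow_left₀ (by linarith) (by positivity) (by norm_num)
          · exact pow_lt_pow_left₀ (by linarith) d0 (by norm_num))
        (x := pt A 0) ⟨0, by rw [hQ0]; simp, rfl⟩ (F := Q.image (pt A))
        (by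
          intro y hy
          obtain ⟨x, hx, rfl⟩ := Finset.mem_image.1 hy
          obtain ⟨c1, c2, c3⟩ := hS0 x (hQS hx)
          refine ⟨⟨x, by rw [hQ0]; simp [hx], rfl⟩, fun e => c1 (pt_inj hA e), ?_⟩
          have e : 2 * β * (l / 2) = β * l := by ring
          rw [e]
          apply lt_of_pow_lt_pow_left₀ 2 (by positivity)
          rw [dist_pt, zero_sub, nsq_neg, mul_pow, hl2]
          exact c2)
      rw [← hD, Finset.card_image_of_injective _ (pt_inj hA)] at h2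
      omega
    · intro q hq
      apply Nat.succ_le_succ
      apply Finset.card_le_card_of_injOn (fun y => q - y)
      · intro y hy
        rw [Finset.mem_coe, Finset.mem_filter] at hy
        rw [Finset.mem_coe, hKm]
        exact hy.2
      · intro x _ y _ hxy
        exact sub_right_injective hxy
  have h2 : F.card ≤ S.card + K.card := by
    calc F.card ≤ (S ∪ K).card := Finset.card_le_card (by
          intro x hx
          rw [Finset.mem_union, hS, Finset.mem_filter]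
          by_cases hxK : x ∈ K
          · exact Or.inr hxK
          · exact Or.inl ⟨hx, hxK⟩)
      _ ≤ _ := Finset.card_union_le _ _
  rw [Set.ncard_eq_toFinset_card _ hfS, Set.ncard_eq_toFinset_card _ hfK, ← hF, ← hK]
  obtain ⟨d, hd⟩ : ∃ d, D = d + 1 := ⟨D - 1, by omega⟩
  rw [hd] at h1 ⊢
  simp only [Nat.add_sub_cancel] at h1
  nlinarith

theorem hermite_nonneg' (n : ℕ) : 0 ≤ hermite n := by
  unfold hermite
  refine Real.iSup_nonneg fun A => div_nonneg ?_ (Real.rpow_nonneg (abs_nonneg _) _)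
  exact minSq_nonneg _

theorem gap_ineq {n : ℕ} (hn : 0 < n) {A : Matrix (Fin n) (Fin n) ℝ} (hA : A.det ≠ 0) {α β : ℝ}
    (hα : 1 ≤ α) (hαβ : α < β) {k a m : ℕ} (hk : 1 ≤ k)
    (hclique : ∀ Q : Finset (EuclideanSpace ℝ (Fin n)),
      (∀ x ∈ Q, ∀ y ∈ Q, x ≠ y → 1 ≤ dist x y ∧ dist x y ≤ α) → Q.card ≤ a)
    (hm : β ^ 2 < (m + 1) * (β ^ 2 - (2 * α ^ 2 - 1 + 1 / k))) :
    β ^ 2 * gam A ≤ (((shell A (α ^ 2) (β ^ 2)).ncard + 1 : ℝ) *
      ((∏ i ∈ Finset.Ico 1 k, 2 * codeMax (n + 1) (cosB α β i)) * (a + m).choose a : ℕ)) ^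
        ((2 : ℝ) / n) * hermite n := by
  refine (sub_ineq hn hA (t := β ^ 2) (by nlinarith)).trans ?_
  apply mul_le_mul_of_nonneg_right _ (hermite_nonneg' n)
  apply Real.rpow_le_rpow (by positivity) _ (by positivity)
  have h := short_le hn hA hα hαβ hk hclique hm
  have h2 : (short A (β ^ 2)).ncard ≤ ((shell A (α ^ 2) (β ^ 2)).ncard + 1) *
      ((∏ i ∈ Finset.Ico 1 k, 2 * codeMax (n + 1) (cosB α β i)) * (a + m).choose a) := by omega
  exact_mod_cast h2

/-- the touching case with `β = √2`, for every dimension -/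
theorem gap_touch {n : ℕ} (hn : 0 < n) {A : Matrix (Fin n) (Fin n) ℝ} (hA : A.det ≠ 0) :
    2 * gam A ≤ (((shell A 1 2).ncard + 1 : ℝ) * (4 * (n + 1) * (n + 5).choose 4)) ^ ((2 : ℝ) / n) *
      hermite n := by
  have h2 : (√2 : ℝ) ^ 2 = 2 := Real.sq_sqrt (by norm_num)
  have h1 := gap_ineq hn hA (α := 1) (β := √2) (k := 2) (a := n + 1) (m := 4) le_rfl
    (Real.lt_sqrt_of_sq_lt (by norm_num)) (by norm_num) (fun Q hQ => clique_one Q hQ)
    (by rw [h2]; norm_num)
  rw [h2, one_pow] at h1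
  refine h1.trans ?_
  apply mul_le_mul_of_nonneg_right _ (hermite_nonneg' n)
  apply Real.rpow_le_rpow (by positivity) _ (by positivity)
  apply mul_le_mul_of_nonneg_left _ (by positivity)
  have e2 : ∏ i ∈ Finset.Ico 1 2, 2 * codeMax (n + 1) (cosB 1 (√2) i)
      = 2 * codeMax (n + 1) 0 := by
    rw [Finset.prod_Ico_succ_top (by norm_num)]
    simp only [Finset.Ico_self, Finset.prod_empty, one_mul]
    congr 2
    unfold cosB
    rw [h2]
    norm_num
  rw [e2]
  have e3 := codeMax_zero (n + 1)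
  have e4 : (n + 1 + 4).choose (n + 1) = (n + 5).choose 4 := by
    rw [Nat.choose_symm_add]
  rw [e4]
  have e5 : 2 * codeMax (n + 1) 0 * (n + 5).choose 4 ≤ 4 * (n + 1) * (n + 5).choose 4 := by
    apply Nat.mul_le_mul_right
    omega
  calc ((2 * codeMax (n + 1) 0 * (n + 5).choose 4 : ℕ) : ℝ)
      ≤ ((4 * (n + 1) * (n + 5).choose 4 : ℕ) : ℝ) := by exact_mod_cast e5
    _ = _ := by push_cast; ring

theorem gam_nonneg {n : ℕ} (A : Matrix (Fin n) (Fin n) ℝ) : 0 ≤ gam A :=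
  div_nonneg (minSq_nonneg A) (Real.rpow_nonneg (abs_nonneg _) _)

/-- the asymptotic form: if the chain bound is `≤ exp (n (log β - δ log 2))` then
`γ(A) ≤ (κ+1)^{2/n} 2^{-2δ} γ_n` -/
theorem gap_num {α β : ℝ} (hα : 1 ≤ α) (hαβ : α < β) {k J m : ℕ} (hk : 1 ≤ k) (hJ : 1 ≤ J)
    (hm : β ^ 2 < (m + 1) * (β ^ 2 - (2 * α ^ 2 - 1 + 1 / k)))
    (v : ℕ → ℝ) {v0 : ℝ}
    (hv : ∀ i ∈ Finset.Ico 1 k, 0 < v i ∧
      cosB α β i ^ 2 * (1 + 2 * v i) ^ 2 < 4 * v i * (1 + v i))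
    (hv0 : 0 < v0) (hv0' : cosB α 1 J ^ 2 * (1 + 2 * v0) ^ 2 < 4 * v0 * (1 + v0)) {δ : ℝ}
    (hγ : ∑ i ∈ Finset.Ico 1 k, G (v i) + m * G v0 < Real.log β - δ * Real.log 2) :
    ∀ᶠ n : ℕ in atTop, ∀ A : Matrix (Fin n) (Fin n) ℝ, A.det ≠ 0 →
      gam A ≤ ((shell A (α ^ 2) (β ^ 2)).ncard + 1 : ℝ) ^ ((2 : ℝ) / n) * (2 : ℝ) ^ (-(2 * δ)) *
        hermite n := by
  have hβ : 0 < β := by linarith
  filter_upwards [D_asym hα v hv hv0 hv0' hγ, eventually_gt_atTop 0] with n hD hn A hA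
  have hn' : (0 : ℝ) < n := by exact_mod_cast hn
  have h1 := gap_ineq hn hA hα hαβ hk (fun Q hQ => clique_gen hα hJ Q hQ) hm
  rw [Real.mul_rpow (by positivity) (by positivity)] at h1
  have h2 : (((∏ i ∈ Finset.Ico 1 k, 2 * codeMax (n + 1) (cosB α β i)) *
      (J + codeMax (n + 1) (cosB α 1 J) + m).choose (J + codeMax (n + 1) (cosB α 1 J)) : ℕ) : ℝ)
        ^ ((2 : ℝ) / n) ≤ β ^ 2 * (2 : ℝ) ^ (-(2 * δ)) := by
    refine (Real.rpow_le_rpow (by positivity) hD (by positivity)).trans (le_of_eq ?_)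
    rw [← Real.exp_mul, Real.rpow_def_of_pos two_pos, ← Real.exp_log (pow_pos hβ 2),
      ← Real.exp_add, Real.log_pow]
    congr 1
    push_cast
    field_simp
    ring
  have h3 : β ^ 2 * gam A ≤ β ^ 2 * (((shell A (α ^ 2) (β ^ 2)).ncard + 1 : ℝ) ^ ((2 : ℝ) / n) *
      (2 : ℝ) ^ (-(2 * δ)) * hermite n) := by
    refine h1.trans ?_
    calc _ ≤ ((shell A (α ^ 2) (β ^ 2)).ncard + 1 : ℝ) ^ ((2 : ℝ) / n) *
          (β ^ 2 * (2 : ℝ) ^ (-(2 * δ))) * hermite n := by
          apply mul_le_mul_of_nonneg_right _ (hermite_nonneg' n)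
          exact mul_le_mul_of_nonneg_left h2 (by positivity)
      _ = _ := by ring
  exact le_of_mul_le_mul_left h3 (by positivity)

end Pool.Agent.TH220.HG
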