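import Pool.Agent.TH220.HG.Gap

/-! Hermite's constant as an extremal count of lattice points in balls (for MP_ef2672_gt). -/

open Matrix Filter
open scoped Topology

namespace Pool.Agent.TH220.HG

open Pool.Agent.H160R3.Herm

/-- the supremum over all full-rank lattices `L = A ℤⁿ` and all `t > 1` of
`t γ(L) / N^{2/n}`, `N` the number of nonzero vectors of `L` of squared length less than `t` times
the minimum -/
noncomputable def sparse (n : ℕ) : ℝ :=
  ⨆ q : {q : Matrix (Fin n) (Fin n) ℝ × ℝ // q.1.det ≠ 0 ∧ 1 < q.2},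
    q.1.2 * gam q.1.1 / ((short q.1.1 q.1.2).ncard : ℝ) ^ ((2 : ℝ) / n)

theorem short_pos {n : ℕ} (hn : 0 < n) {A : Matrix (Fin n) (Fin n) ℝ} (hA : A.det ≠ 0) {t : ℝ}
    (ht : 1 < t) : 0 < (short A t).ncard := by
  obtain ⟨w, hw, hwm⟩ := exists_min hn hA
  have hmin := minSq_pos hn hA
  rw [Set.ncard_pos (short_finite hA t)]
  exact ⟨w, hw, by rw [hwm]; nlinarith⟩

theorem value_le_hermite {n : ℕ} (hn : 0 < n) {A : Matrix (Fin n) (Fin n) ℝ} (hA : A.det ≠ 0)
    {t : ℝ} (ht : 1 < t) :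
    t * gam A / ((short A t).ncard : ℝ) ^ ((2 : ℝ) / n) ≤ hermite n := by
  have h1 : (0 : ℝ) < (short A t).ncard := by exact_mod_cast short_pos hn hA ht
  rw [div_le_iff₀ (by positivity), mul_comm (hermite n)]
  exact sub_ineq hn hA ht

theorem sparse_bdd {n : ℕ} (hn : 0 < n) : BddAbove (Set.range
    fun q : {q : Matrix (Fin n) (Fin n) ℝ × ℝ // q.1.det ≠ 0 ∧ 1 < q.2} =>
      q.1.2 * gam q.1.1 / ((short q.1.1 q.1.2).ncard : ℝ) ^ ((2 : ℝ) / n)) :=
  ⟨hermite n, by rintro _ ⟨q, rfl⟩; exact value_le_hermite hn q.2.1 q.2.2⟩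

theorem value_le_sparse {n : ℕ} (hn : 0 < n) {A : Matrix (Fin n) (Fin n) ℝ} (hA : A.det ≠ 0)
    {t : ℝ} (ht : 1 < t) :
    t * gam A / ((short A t).ncard : ℝ) ^ ((2 : ℝ) / n) ≤ sparse n :=
  le_ciSup (sparse_bdd hn)
    (⟨(A, t), hA, ht⟩ : {q : Matrix (Fin n) (Fin n) ℝ × ℝ // q.1.det ≠ 0 ∧ 1 < q.2})

theorem sparse_le {n : ℕ} (hn : 0 < n) : sparse n ≤ hermite n := by
  have : Nonempty {q : Matrix (Fin n) (Fin n) ℝ × ℝ // q.1.det ≠ 0 ∧ 1 < q.2} :=
    ⟨⟨(1, 2), by simp⟩⟩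
  exact ciSup_le fun q => value_le_hermite hn q.2.1 q.2.2

/-- the contraction in the direction of `v` -/
noncomputable def contr {n : ℕ} (v : Fin n → ℝ) (ε : ℝ) : Matrix (Fin n) (Fin n) ℝ :=
  1 + Matrix.replicateCol Unit ((-(ε / (v ⬝ᵥ v))) • v) * Matrix.replicateRow Unit v

theorem det_contr {n : ℕ} {v : Fin n → ℝ} (hv : v ⬝ᵥ v ≠ 0) (ε : ℝ) :
    (contr v ε).det = 1 - ε := by
  rw [contr, Matrix.det_one_add_replicateCol_mul_replicateRow, dotProduct_smul, smul_eq_mul]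
  field_simp
  ring

theorem contr_mulVec {n : ℕ} (v : Fin n → ℝ) (ε : ℝ) (x : Fin n → ℝ) :
    (contr v ε).mulVec x = x + (-(ε / (v ⬝ᵥ v)) * (v ⬝ᵥ x)) • v := by
  rw [contr, Matrix.add_mulVec, Matrix.one_mulVec, ← Matrix.mulVec_mulVec]
  congr 1
  ext i
  simp only [Matrix.mulVec, dotProduct, Matrix.replicateCol_apply, Matrix.replicateRow_apply,
    Finset.univ_unique, Finset.sum_singleton, Pi.smul_apply, smul_eq_mul]
  ring

theorem contr_sq {n : ℕ} {v : Fin n → ℝ} (hv : v ⬝ᵥ v ≠ 0) (ε : ℝ) (x : Fin n → ℝ) :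
    (contr v ε).mulVec x ⬝ᵥ (contr v ε).mulVec x =
      x ⬝ᵥ x - (2 * ε - ε ^ 2) * (v ⬝ᵥ x) ^ 2 / (v ⬝ᵥ v) := by
  rw [contr_mulVec]
  simp only [add_dotProduct, dotProduct_add, smul_dotProduct, dotProduct_smul, smul_eq_mul]
  rw [dotProduct_comm x v]
  field_simp
  ring

theorem nsq_eq {n : ℕ} (A : Matrix (Fin n) (Fin n) ℝ) (w : Fin n → ℤ) :
    nsq A w = A.mulVec (fun j => (w j : ℝ)) ⬝ᵥ A.mulVec (fun j => (w j : ℝ)) := by
  unfold nsq dotProduct
  exact Finset.sum_congr rfl fun i _ => sq _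

theorem cauchy {n : ℕ} (v x : Fin n → ℝ) : (v ⬝ᵥ x) ^ 2 ≤ (v ⬝ᵥ v) * (x ⬝ᵥ x) := by
  have := Finset.sum_mul_sq_le_sq_mul_sq Finset.univ v x
  simp only [dotProduct, ← sq]
  exact this

/-- every lattice can be moved slightly so that only two minimal vectors remain -/
theorem perturb {n : ℕ} (hn : 0 < n) {A : Matrix (Fin n) (Fin n) ℝ} (hA : A.det ≠ 0) {ε : ℝ}
    (h0 : 0 < ε) (h1 : ε < 1) : ∃ B : Matrix (Fin n) (Fin n) ℝ, B.det ≠ 0 ∧
      (1 - ε) ^ 2 * gam A ≤ gam B ∧ ∃ t : ℝ, 1 < t ∧ (short B t).ncard = 2 := by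
  classical
  obtain ⟨w0, hw0, hw0m⟩ := exists_min hn hA
  have hmin := minSq_pos hn hA
  set v := A.mulVec (fun j => (w0 j : ℝ)) with hv
  have hvv : v ⬝ᵥ v = minSq A := by rw [← hw0m, nsq_eq]
  have hv0 : v ⬝ᵥ v ≠ 0 := by rw [hvv]; exact hmin.ne'
  set B := contr v ε * A with hB
  have hdet : B.det = (1 - ε) * A.det := by rw [hB, Matrix.det_mul, det_contr hv0]
  have hdet0 : B.det ≠ 0 := by
    rw [hdet]
    exact mul_ne_zero (by linarith) hA
  have hnB : ∀ w, nsq B w = nsq A w - (2 * ε - ε ^ 2) *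
      (v ⬝ᵥ A.mulVec (fun j => (w j : ℝ))) ^ 2 / minSq A := by
    intro w
    rw [nsq_eq, hB, ← Matrix.mulVec_mulVec, contr_sq hv0, hvv, ← nsq_eq]
  have hc : 0 < 2 * ε - ε ^ 2 := by nlinarith
  have hlow : ∀ w, (1 - ε) ^ 2 * nsq A w ≤ nsq B w := by
    intro w
    have h2 := cauchy v (A.mulVec (fun j => (w j : ℝ)))
    rw [hvv, ← nsq_eq] at h2
    have h3 : (v ⬝ᵥ A.mulVec (fun j => (w j : ℝ))) ^ 2 / minSq A ≤ nsq A w := by
      rw [div_le_iff₀ hmin]; linarith
    rw [hnB, mul_div_assoc]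
    nlinarith
  have hB0 : nsq B w0 = (1 - ε) ^ 2 * minSq A := by
    rw [hnB, ← hv, hvv, hw0m]
    field_simp
    ring
  have hstrict : ∀ w, w ≠ 0 → w ≠ w0 → w ≠ -w0 → (1 - ε) ^ 2 * minSq A < nsq B w := by
    intro w hw hw1 hw2
    have hA1 : minSq A ≤ nsq A w := minSq_le A w hw
    refine lt_of_le_of_ne ((mul_le_mul_of_nonneg_left hA1 (sq_nonneg _)).trans (hlow w)) ?_
    intro heq
    set x := A.mulVec (fun j => (w j : ℝ)) with hx
    have h2 := cauchy v x
    rw [hvv, hx, ← nsq_eq, ← hx] at h2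
    have hq : (v ⬝ᵥ x) ^ 2 / minSq A ≤ nsq A w := by
      rw [div_le_iff₀ hmin]; linarith
    rw [hnB, mul_div_assoc] at heq
    rw [← hx] at heq
    have h1e : 0 < (1 - ε) ^ 2 := by
      have : 0 < 1 - ε := by linarith
      positivity
    have e1 : nsq A w = minSq A := by
      by_contra hne
      have hlt : minSq A < nsq A w := lt_of_le_of_ne hA1 (Ne.symm hne)
      nlinarith
    have e2 : (v ⬝ᵥ x) ^ 2 / minSq A = minSq A := by
      rw [e1] at heq hq
      nlinarith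
    have e3 : (v ⬝ᵥ x) ^ 2 = minSq A ^ 2 := by
      rw [div_eq_iff hmin.ne'] at e2
      rw [e2]; ring
    have hxx : x ⬝ᵥ x = minSq A := by rw [← e1, nsq_eq]
    rcases sq_eq_sq_iff_eq_or_eq_neg.1 e3 with h | h
    · have h5 : nsq A (w - w0) = 0 := by
        rw [nsq_eq]
        have e : (fun j => ((w - w0) j : ℝ)) = (fun j => (w j : ℝ)) - (fun j => (w0 j : ℝ)) := by
          ext j; simp
        rw [e, Matrix.mulVec_sub, ← hx, ← hv]
        simp only [sub_dotProduct, dotProduct_sub]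
        rw [dotProduct_comm x v, hxx, hvv, h]
        ring
      exact (nsq_pos hA (sub_ne_zero.2 hw1)).ne' h5
    · have h5 : nsq A (w + w0) = 0 := by
        rw [nsq_eq]
        have e : (fun j => ((w + w0) j : ℝ)) = (fun j => (w j : ℝ)) + (fun j => (w0 j : ℝ)) := by
          ext j; simp
        rw [e, Matrix.mulVec_add, ← hx, ← hv]
        simp only [add_dotProduct, dotProduct_add]
        rw [dotProduct_comm x v, hxx, hvv, h]
        ring
      exact (nsq_pos hA (fun h6 => hw2 (eq_neg_of_add_eq_zero_left h6))).ne' h5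
  have hmB : minSq B = (1 - ε) ^ 2 * minSq A := by
    apply le_antisymm
    · rw [← hB0]; exact minSq_le B w0 hw0
    · apply le_minSq hn
      intro w hw
      exact (mul_le_mul_of_nonneg_left (minSq_le A w hw) (sq_nonneg _)).trans (hlow w)
  have hmB0 : 0 < minSq B := minSq_pos hn hdet0
  have hne0 : w0 ≠ -w0 := by
    intro h
    apply hw0
    ext i
    have h3 := congrFun h i
    simp only [Pi.neg_apply] at h3
    simp only [Pi.zero_apply]
    omega
  have hpair : ∀ t : ℝ, 1 < t → ({w0, -w0} : Set (Fin n → ℤ)) ⊆ short B t := by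
    intro t ht w hw
    have h6 : nsq B w0 < t * minSq B := by
      rw [hB0, ← hmB]; nlinarith
    rcases hw with rfl | hw
    · exact ⟨hw0, h6⟩
    · rw [Set.mem_singleton_iff] at hw
      rw [hw]
      exact ⟨neg_ne_zero.2 hw0, by rw [nsq_neg]; exact h6⟩
  refine ⟨B, hdet0, ?_, ?_⟩
  · rw [gam, gam, hmB, hdet, abs_mul, abs_of_pos (show (0 : ℝ) < 1 - ε by linarith), mul_div_assoc']
    apply div_le_div_of_nonneg_left (by positivity)
    · have : 0 < |A.det| := abs_pos.2 hA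
      have h7 : 0 < 1 - ε := by linarith
      positivity
    · apply Real.rpow_le_rpow (mul_nonneg (by linarith) (abs_nonneg _)) _ (by positivity)
      have := abs_nonneg A.det
      nlinarith
  · have hfin2 := short_finite hdet0 2
    set T := hfin2.toFinset.filter (fun w => w ≠ w0 ∧ w ≠ -w0) with hT
    have hTm : ∀ w, w ∈ T ↔ (w ≠ 0 ∧ nsq B w < 2 * minSq B) ∧ w ≠ w0 ∧ w ≠ -w0 := by
      intro w
      rw [hT, Finset.mem_filter, Set.Finite.mem_toFinset]
      rfl
    have key : ∀ t : ℝ, 1 < t → t ≤ 2 → (∀ w ∈ T, t * minSq B ≤ nsq B w) →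
        (short B t).ncard = 2 := by
      intro t ht1 ht2 ht3
      have : short B t = {w0, -w0} := by
        apply Set.Subset.antisymm _ (hpair t ht1)
        intro w hw
        by_contra hcon
        have h8 : w ≠ w0 ∧ w ≠ -w0 := by
          constructor
          · rintro rfl; exact hcon (Set.mem_insert _ _)
          · rintro rfl; exact hcon (Set.mem_insert_of_mem _ rfl)
        have h9 : w ∈ T := by
          rw [hTm]
          refine ⟨⟨hw.1, hw.2.trans_le ?_⟩, h8⟩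
          exact mul_le_mul_of_nonneg_right ht2 hmB0.le
        exact absurd hw.2 (not_lt.2 (ht3 w h9))
      rw [this]
      exact Set.ncard_pair hne0
    rcases T.eq_empty_or_nonempty with hTe | hTne
    · refine ⟨2, by norm_num, key 2 (by norm_num) le_rfl ?_⟩
      intro w hw
      rw [hTe] at hw
      exact absurd hw (Finset.notMem_empty _)
    · obtain ⟨w1, hw1, hw1m⟩ := T.exists_min_image (nsq B) hTne
      have hw1' := (hTm w1).1 hw1
      refine ⟨nsq B w1 / minSq B, ?_, key _ ?_ ?_ ?_⟩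
      · rw [one_lt_div hmB0, hmB]
        exact hstrict w1 hw1'.1.1 hw1'.2.1 hw1'.2.2
      · rw [one_lt_div hmB0, hmB]
        exact hstrict w1 hw1'.1.1 hw1'.2.1 hw1'.2.2
      · rw [div_le_iff₀ hmB0]
        exact hw1'.1.2.le
      · intro w hw
        rw [div_mul_cancel₀ _ hmB0.ne']
        exact hw1m w hw

theorem hermite_le_sparse {n : ℕ} (hn : 0 < n) :
    hermite n ≤ (2 : ℝ) ^ ((2 : ℝ) / n) * sparse n := by
  have : Nonempty {A : Matrix (Fin n) (Fin n) ℝ // A.det ≠ 0} := ⟨⟨1, by simp⟩⟩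
  apply ciSup_le
  rintro ⟨A, hA⟩
  change gam A ≤ _
  have h1 : ∀ ε : ℝ, 0 < ε → ε < 1 → (1 - ε) ^ 2 * gam A ≤ (2 : ℝ) ^ ((2 : ℝ) / n) * sparse n := by
    intro ε h0 h1
    obtain ⟨B, hB, hBA, t, ht, hN⟩ := perturb hn hA h0 h1
    have h2 := value_le_sparse hn hB ht
    rw [hN, div_le_iff₀ (by positivity)] at h2
    have h3 : gam B ≤ t * gam B := by
      have := gam_nonneg B
      nlinarith
    push_cast at h2
    linarith
  have h2 : Tendsto (fun ε : ℝ => (1 - ε) ^ 2 * gam A) (𝓝[>] 0) (𝓝 ((1 - 0) ^ 2 * gam A)) := by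
    apply Tendsto.mono_left _ nhdsWithin_le_nhds
    apply Continuous.tendsto
    fun_prop
  have h3 := le_of_tendsto h2 (b := (2 : ℝ) ^ ((2 : ℝ) / n) * sparse n) (by
    have : Set.Ioo (0 : ℝ) 1 ∈ 𝓝[>] (0 : ℝ) := Ioo_mem_nhdsGT one_pos
    filter_upwards [this] with ε hε
    exact h1 ε hε.1 hε.2)
  simpa using h3

theorem tendsto_two : Tendsto (fun n : ℕ => (2 : ℝ) ^ ((2 : ℝ) / n)) atTop (𝓝 1) := by
  have h : Tendsto (fun n : ℕ => (2 : ℝ) / n) atTop (𝓝 0) := tendsto_const_div_atTop_nhds_zero_nat 2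
  have h2 := (Real.continuous_const_rpow (a := 2) (by norm_num)).tendsto (0 : ℝ)
  rw [Real.rpow_zero] at h2
  exact h2.comp h

/-- `γ_n / n` and `sparse n / n` differ by a null sequence -/
theorem tendsto_sub : Tendsto (fun n : ℕ => hermite n / n - sparse n / n) atTop (𝓝 0) := by
  have h1 : Tendsto (fun n : ℕ => (2 : ℝ) ^ ((2 : ℝ) / n) - 1) atTop (𝓝 0) := by
    simpa using tendsto_two.sub_const 1
  apply squeeze_zero' _ _ h1
  · filter_upwards [eventually_gt_atTop 0] with n hn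
    rw [← sub_div]
    exact div_nonneg (sub_nonneg.2 (sparse_le hn)) (Nat.cast_nonneg _)
  · filter_upwards [eventually_gt_atTop 0] with n hn
    have hn' : (0 : ℝ) < n := by exact_mod_cast hn
    have h2 := hermite_le_sparse hn
    have h3 := sparse_le hn
    have h4 := hermite_le hn
    have h5 : (1 : ℝ) ≤ (2 : ℝ) ^ ((2 : ℝ) / n) := Real.one_le_rpow (by norm_num) (by positivity)
    have h6 : sparse n ≤ n := h3.trans h4
    rw [← sub_div, div_le_iff₀ hn']
    nlinarith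

theorem limit_iff (L : ℝ) : Tendsto (fun n : ℕ => hermite n / n) atTop (𝓝 L) ↔
    Tendsto (fun n : ℕ => sparse n / n) atTop (𝓝 L) := by
  constructor
  · intro h
    have := h.sub tendsto_sub
    simpa using this
  · intro h
    have := h.add tendsto_sub
    simpa using this

/-- upper bounds of `γ_n / n` are lower bounds for the counts of lattice points in all balls -/
theorem upper_iff (L : ℝ) (hL : 0 < L) :
    (∀ ε > 0, ∀ᶠ n : ℕ in atTop, hermite n / n ≤ L + ε) ↔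
    (∀ ε > 0, ∀ᶠ n : ℕ in atTop, ∀ A : Matrix (Fin n) (Fin n) ℝ, A.det ≠ 0 → ∀ t : ℝ, 1 < t →
      (t * gam A / ((L + ε) * n)) ^ ((n : ℝ) / 2) ≤ (short A t).ncard) := by
  constructor
  · intro h ε hε
    filter_upwards [h ε hε, eventually_gt_atTop 0] with n h1 hn A hA t ht
    have hn' : (0 : ℝ) < n := by exact_mod_cast hn
    rw [div_le_iff₀ hn'] at h1
    have h2 := sub_ineq hn hA ht
    have h3 : t * gam A / ((L + ε) * n) ≤ ((short A t).ncard : ℝ) ^ ((2 : ℝ) / n) := by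
      rw [div_le_iff₀ (by positivity)]
      exact h2.trans (mul_le_mul_of_nonneg_left h1 (by positivity))
    have h0 : 0 ≤ t * gam A / ((L + ε) * n) :=
      div_nonneg (mul_nonneg (by linarith) (gam_nonneg A)) (by positivity)
    have h4 := Real.rpow_le_rpow h0 h3 (show (0 : ℝ) ≤ (n : ℝ) / 2 by positivity)
    rw [← Real.rpow_mul (by positivity)] at h4
    have e : (2 : ℝ) / n * (n / 2) = 1 := by field_simp
    rwa [e, Real.rpow_one] at h4
  · intro h ε hε
    have h1 : Tendsto (fun n : ℕ => (2 : ℝ) ^ ((2 : ℝ) / n) * (L + ε / 2)) atTop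
        (𝓝 (1 * (L + ε / 2))) := tendsto_two.mul_const _
    have h2 := h1.eventually (gt_mem_nhds (show 1 * (L + ε / 2) < L + ε by linarith))
    filter_upwards [h (ε / 2) (by positivity), eventually_gt_atTop 0, h2] with n h3 hn h4
    have hn' : (0 : ℝ) < n := by exact_mod_cast hn
    have : Nonempty {q : Matrix (Fin n) (Fin n) ℝ × ℝ // q.1.det ≠ 0 ∧ 1 < q.2} :=
      ⟨⟨(1, 2), by simp⟩⟩
    have h5 : sparse n ≤ (L + ε / 2) * n := by
      apply ciSup_le
      rintro ⟨⟨A, t⟩, hA, ht⟩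
      have h6 := h3 A hA t ht
      have hN : (0 : ℝ) < (short A t).ncard := by exact_mod_cast short_pos hn hA ht
      have h0 : 0 ≤ t * gam A / ((L + ε / 2) * n) :=
        div_nonneg (mul_nonneg (by linarith) (gam_nonneg A)) (by positivity)
      have h7 := Real.rpow_le_rpow (Real.rpow_nonneg h0 _) h6 (show (0 : ℝ) ≤ (2 : ℝ) / n by positivity)
      rw [← Real.rpow_mul h0] at h7
      have e : (n : ℝ) / 2 * (2 / n) = 1 := by field_simp
      rw [e, Real.rpow_one, div_le_iff₀ (by positivity)] at h7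
      rw [div_le_iff₀ (by positivity)]
      linarith
    rw [div_le_iff₀ hn']
    calc hermite n ≤ (2 : ℝ) ^ ((2 : ℝ) / n) * sparse n := hermite_le_sparse hn
      _ ≤ (2 : ℝ) ^ ((2 : ℝ) / n) * ((L + ε / 2) * n) :=
          mul_le_mul_of_nonneg_left h5 (by positivity)
      _ = ((2 : ℝ) ^ ((2 : ℝ) / n) * (L + ε / 2)) * n := by ring
      _ ≤ (L + ε) * n := mul_le_mul_of_nonneg_right h4.le hn'.le

end Pool.Agent.TH220.HG
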