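import Pool.Agent.H160R3.Herm.Lower

/-! Sublattices of prime index avoiding all short vectors (for MP_ef2672_gt). -/

open Matrix Finset

namespace Pool.Agent.TH220.HG

open Pool.Agent.H160R3.Herm

/-- squared length of the vector `A w` of the lattice `A ℤⁿ` -/
noncomputable def nsq {n : ℕ} (A : Matrix (Fin n) (Fin n) ℝ) (w : Fin n → ℤ) : ℝ :=
  ∑ i, (Matrix.mulVec A (fun j => (w j : ℝ))) i ^ 2

theorem nsq_nonneg {n : ℕ} (A : Matrix (Fin n) (Fin n) ℝ) (w : Fin n → ℤ) : 0 ≤ nsq A w :=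
  Finset.sum_nonneg fun _ _ => sq_nonneg _

theorem nsq_neg {n : ℕ} (A : Matrix (Fin n) (Fin n) ℝ) (w : Fin n → ℤ) : nsq A (-w) = nsq A w := by
  unfold nsq
  have : (fun j => ((-w) j : ℝ)) = -(fun j => (w j : ℝ)) := by ext j; simp
  rw [this, Matrix.mulVec_neg]
  simp

theorem nsq_smul {n : ℕ} (A : Matrix (Fin n) (Fin n) ℝ) (c : ℤ) (w : Fin n → ℤ) :
    nsq A (c • w) = (c : ℝ) ^ 2 * nsq A w := by
  unfold nsq
  have : (fun j => ((c • w) j : ℝ)) = (c : ℝ) • (fun j => (w j : ℝ)) := by ext j; simp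
  rw [this, Matrix.mulVec_smul, Finset.mul_sum]
  refine Finset.sum_congr rfl fun i _ => ?_
  simp [mul_pow]

theorem nsq_pos {n : ℕ} {A : Matrix (Fin n) (Fin n) ℝ} (hA : A.det ≠ 0) {w : Fin n → ℤ}
    (hw : w ≠ 0) : 0 < nsq A w := by
  refine lt_of_le_of_ne (nsq_nonneg A w) fun h => hw ?_
  have h1 := (Finset.sum_eq_zero_iff_of_nonneg (fun i _ => sq_nonneg _)).1 h.symm
  have h2 : A.mulVec (fun j => (w j : ℝ)) = 0 := by
    ext i
    have := h1 i (Finset.mem_univ i)
    simpa using this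
  have h3 := Matrix.eq_zero_of_mulVec_eq_zero hA h2
  ext j
  have := congrFun h3 j
  simpa using this

theorem finite_lt {n : ℕ} {A : Matrix (Fin n) (Fin n) ℝ} (hA : A.det ≠ 0) (c : ℝ) :
    {w : Fin n → ℤ | nsq A w < c}.Finite := by
  classical
  set M : ℝ := ∑ i, ∑ j, |A⁻¹ i j| with hM
  set K : ℤ := ⌈M * √c⌉ with hK
  apply Set.Finite.subset (Finset.finite_toSet (Fintype.piFinset fun _ : Fin n => Finset.Icc (-K) K))
  intro w hw
  simp only [Set.mem_ofPred_eq] at hw
  rw [Finset.mem_coe, Fintype.mem_piFinset]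
  intro i
  have hdet : IsUnit A.det := isUnit_iff_ne_zero.mpr hA
  set v := A.mulVec (fun j => (w j : ℝ)) with hv
  have h1 : (w i : ℝ) = ∑ j, A⁻¹ i j * v j := by
    have : A⁻¹.mulVec v = fun j => (w j : ℝ) := by
      rw [hv, Matrix.mulVec_mulVec, Matrix.nonsing_inv_mul _ hdet, Matrix.one_mulVec]
    have h2 := congrFun this i
    rw [← h2]
    rfl
  have h2 : ∀ j, |v j| ≤ √c := by
    intro j
    apply Real.abs_le_sqrt
    refine le_trans ?_ hw.le
    exact Finset.single_le_sum (f := fun i => v i ^ 2) (fun _ _ => sq_nonneg _) (Finset.mem_univ j)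
  have h3 : |(w i : ℝ)| ≤ M * √c := by
    rw [h1]
    calc |∑ j, A⁻¹ i j * v j| ≤ ∑ j, |A⁻¹ i j * v j| := Finset.abs_sum_le_sum_abs _ _
      _ = ∑ j, |A⁻¹ i j| * |v j| := by simp [abs_mul]
      _ ≤ ∑ j, |A⁻¹ i j| * √c := by
          apply Finset.sum_le_sum
          intro j _
          exact mul_le_mul_of_nonneg_left (h2 j) (abs_nonneg _)
      _ = (∑ j, |A⁻¹ i j|) * √c := by rw [Finset.sum_mul]
      _ ≤ M * √c := by
          apply mul_le_mul_of_nonneg_right _ (Real.sqrt_nonneg _)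
          rw [hM]
          exact Finset.single_le_sum (f := fun i => ∑ j, |A⁻¹ i j|)
            (fun _ _ => Finset.sum_nonneg fun _ _ => abs_nonneg _) (Finset.mem_univ i)
  have h4 : |(w i : ℝ)| ≤ K := h3.trans (Int.le_ceil _)
  rw [Finset.mem_Icc]
  rw [abs_le] at h4
  exact_mod_cast h4

theorem exists_min {n : ℕ} (hn : 0 < n) {A : Matrix (Fin n) (Fin n) ℝ} (hA : A.det ≠ 0) :
    ∃ w : Fin n → ℤ, w ≠ 0 ∧ nsq A w = minSq A := by
  classical
  set e : Fin n → ℤ := fun _ => 1 with he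
  have he0 : e ≠ 0 := fun h => by
    have := congrFun h ⟨0, hn⟩
    simp [he] at this
  have hfin : {w : Fin n → ℤ | w ≠ 0 ∧ nsq A w < nsq A e + 1}.Finite :=
    (finite_lt hA (nsq A e + 1)).subset fun w hw => hw.2
  obtain ⟨w, hw, hmin⟩ := hfin.toFinset.exists_min_image (nsq A)
    ⟨e, by rw [Set.Finite.mem_toFinset]; exact ⟨he0, by linarith⟩⟩
  rw [Set.Finite.mem_toFinset] at hw
  refine ⟨w, hw.1, le_antisymm ?_ (minSq_le A w hw.1)⟩
  apply le_minSq hn
  intro z hz
  by_cases h : nsq A z < nsq A e + 1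
  · exact hmin z (by rw [Set.Finite.mem_toFinset]; exact ⟨hz, h⟩)
  · push Not at h
    exact hw.2.le.trans h

theorem minSq_pos {n : ℕ} (hn : 0 < n) {A : Matrix (Fin n) (Fin n) ℝ} (hA : A.det ≠ 0) :
    0 < minSq A := by
  obtain ⟨w, hw, h⟩ := exists_min hn hA
  rw [← h]
  exact nsq_pos hA hw

/-- the nonzero vectors `w` (in coordinates) with squared length less than `t` times the minimum -/
def short {n : ℕ} (A : Matrix (Fin n) (Fin n) ℝ) (t : ℝ) : Set (Fin n → ℤ) :=
  {w | w ≠ 0 ∧ nsq A w < t * minSq A}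

theorem short_finite {n : ℕ} {A : Matrix (Fin n) (Fin n) ℝ} (hA : A.det ≠ 0) (t : ℝ) :
    (short A t).Finite :=
  (finite_lt hA (t * minSq A)).subset fun _ hw => hw.2

theorem card_sol (k p : ℕ) [hp : Fact p.Prime] (x : Fin (k + 1) → ℤ)
    (hx0 : ∃ i, (x i : ZMod p) ≠ 0) : (solSet k p x).card * p ≤ p ^ k := by
  classical
  by_cases hall : ∀ j : Fin k, (x (Fin.castAdd 1 j) : ZMod p) = 0
  · have hempty : solSet k p x = ∅ := by
      rw [Finset.eq_empty_iff_forall_notMem]
      intro a ha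
      unfold solSet at ha
      rw [mem_filter] at ha
      have h1 : (x (Fin.natAdd k 0) : ZMod p) = 0 := by
        rw [ha.2]
        apply Finset.sum_eq_zero
        intro j _
        rw [hall j, mul_zero]
      obtain ⟨i, hi⟩ := hx0
      apply hi
      refine Fin.addCases (m := k) (n := 1) (motive := fun i => (x i : ZMod p) = 0)
        (fun j => ?_) (fun j => ?_) i
      · exact hall j
      · have hj : j = 0 := Subsingleton.elim _ _
        subst hj
        exact h1
    rw [hempty]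
    simp
  · push Not at hall
    obtain ⟨j0, hj0⟩ := hall
    have hcard : (univ : Finset (Fin k → ZMod p)).card = p ^ k := by
      rw [Finset.card_univ, Fintype.card_pi_const, ZMod.card]
    have hprod : (solSet k p x ×ˢ (univ : Finset (ZMod p))).card = (solSet k p x).card * p := by
      rw [Finset.card_product, Finset.card_univ, ZMod.card]
    rw [← hprod, ← hcard]
    apply Finset.card_le_card_of_injOn (fun q => q.1 + Pi.single j0 q.2)
    · intro _ _
      simp
    · rintro ⟨a, s⟩ ha ⟨b, t⟩ hb hab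
      simp only [coe_product, Set.mem_prod, mem_coe, coe_univ, Set.mem_univ, and_true] at ha hb
      unfold solSet at ha hb
      rw [mem_filter] at ha hb
      simp only at hab
      have h1 : ∑ j, (a + Pi.single j0 s : Fin k → ZMod p) j * (x (Fin.castAdd 1 j) : ZMod p) =
          ∑ j, (b + Pi.single j0 t : Fin k → ZMod p) j * (x (Fin.castAdd 1 j) : ZMod p) := by rw [hab]
      have h2 : ∀ (c : Fin k → ZMod p) (r : ZMod p),
          ∑ j, (c + Pi.single j0 r : Fin k → ZMod p) j * (x (Fin.castAdd 1 j) : ZMod p) =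
            ∑ j, c j * (x (Fin.castAdd 1 j) : ZMod p) + r * (x (Fin.castAdd 1 j0) : ZMod p) := by
        intro c r
        simp only [Pi.add_apply, add_mul, Finset.sum_add_distrib]
        congr 1
        rw [Finset.sum_eq_single j0]
        · simp
        · intro j _ hj
          rw [Pi.single_eq_of_ne hj, zero_mul]
        · simp
      rw [h2, h2, ← ha.2, ← hb.2, add_right_inj] at h1
      have h3 : s = t := mul_right_cancel₀ hj0 h1
      subst h3
      have h4 : a = b := add_right_cancel hab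
      rw [h4]

theorem mem_sol_neg (k p : ℕ) [hp : Fact p.Prime] (x : Fin (k + 1) → ℤ) (a : Fin k → ZMod p)
    (h : a ∈ solSet k p x) : a ∈ solSet k p (-x) := by
  unfold solSet at h ⊢
  rw [mem_filter] at h ⊢
  refine ⟨mem_univ _, ?_⟩
  simp only [Pi.neg_apply, Int.cast_neg, mul_neg, Finset.sum_neg_distrib]
  rw [h.2]

theorem exists_avoid (k p : ℕ) [hp : Fact p.Prime] (F : Finset (Fin (k + 1) → ℤ))
    (hsymm : ∀ x ∈ F, -x ∈ F) (h0 : ∀ x ∈ F, ∃ i, (x i : ZMod p) ≠ 0) (hF : F.card < 2 * p) :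
    ∃ a : Fin k → ZMod p, ∀ x ∈ F, a ∉ solSet k p x := by
  classical
  by_contra hcon
  push Not at hcon
  have hcard : (univ : Finset (Fin k → ZMod p)).card = p ^ k := by
    rw [Finset.card_univ, Fintype.card_pi_const, ZMod.card]
  have h1 : ∑ x ∈ F, (solSet k p x).card = ∑ a : Fin k → ZMod p, (F.filter
      (fun x => a ∈ solSet k p x)).card := by
    simp only [Finset.card_filter]
    rw [Finset.sum_comm]
    refine Finset.sum_congr rfl fun x _ => ?_
    rw [← Finset.card_filter]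
    congr 1
    ext a
    simp
  have h2 : 2 * p ^ k ≤ ∑ x ∈ F, (solSet k p x).card := by
    rw [h1, ← hcard, mul_comm, ← smul_eq_mul, ← Finset.sum_const]
    apply Finset.sum_le_sum
    intro a _
    obtain ⟨x, hx, hax⟩ := hcon a
    have hne : x ≠ -x := by
      intro h
      obtain ⟨i, hi⟩ := h0 x hx
      apply hi
      have h3 := congrFun h i
      simp only [Pi.neg_apply] at h3
      have : x i = 0 := by omega
      rw [this]
      simp
    have h4 : ({x, -x} : Finset (Fin (k + 1) → ℤ)) ⊆ F.filter (fun x => a ∈ solSet k p x) := by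
      intro y hy
      rw [mem_insert, mem_singleton] at hy
      rw [mem_filter]
      rcases hy with rfl | rfl
      · exact ⟨hx, hax⟩
      · exact ⟨hsymm x hx, mem_sol_neg k p x a hax⟩
    calc 2 = ({x, -x} : Finset (Fin (k + 1) → ℤ)).card := (Finset.card_pair hne).symm
      _ ≤ _ := Finset.card_le_card h4
  have h3 : (∑ x ∈ F, (solSet k p x).card) * p ≤ F.card * p ^ k := by
    rw [Finset.sum_mul, ← smul_eq_mul, ← Finset.sum_const]
    exact Finset.sum_le_sum fun x hx => card_sol k p x (h0 x hx)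
  have h4 : 2 * p ^ k * p ≤ F.card * p ^ k := (Nat.mul_le_mul_right p h2).trans h3
  have h5 : F.card * p ^ k < 2 * p * p ^ k := Nat.mul_lt_mul_of_pos_right hF (pow_pos hp.out.pos _)
  have h6 : 2 * p ^ k * p = 2 * p * p ^ k := by ring
  omega

theorem nsq_mul_modMat (k p : ℕ) (A : Matrix (Fin (k + 1)) (Fin (k + 1)) ℝ) (a : Fin k → ℕ)
    (w : Fin (k + 1) → ℤ) : nsq (A * modMat k p a) w = nsq A (modVec k p a w) := by
  unfold nsq
  rw [← Matrix.mulVec_mulVec]
  have : (modMat k p a).mulVec (fun j => (w j : ℝ)) = fun j => (modVec k p a w j : ℝ) := by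
    ext i
    exact mulVec_modMat k p a w i
  rw [this]

theorem modVec_ne (k p : ℕ) (hp : p ≠ 0) (a : Fin k → ℕ) {w : Fin (k + 1) → ℤ} (hw : w ≠ 0) :
    modVec k p a w ≠ 0 := by
  intro h0
  apply hw
  have hwl : ∀ j : Fin k, w (Fin.castAdd 1 j) = 0 := by
    intro j
    have := congrFun h0 (Fin.castAdd 1 j)
    rw [modVec, Fin.addCases_left] at this
    exact this
  ext i
  refine Fin.addCases (m := k) (n := 1) (motive := fun i => w i = (0 : Fin (k + 1) → ℤ) i)
    (fun j => ?_) (fun j => ?_) i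
  · exact hwl j
  · have hj : j = 0 := Subsingleton.elim _ _
    subst hj
    have h3 := congrFun h0 (Fin.natAdd k (0 : Fin 1))
    rw [modVec, Fin.addCases_right] at h3
    have h2 : (p : ℤ) * w (Fin.natAdd k (0 : Fin 1)) = 0 := by
      simpa [hwl] using h3
    rcases mul_eq_zero.mp h2 with h3 | h3
    · exact absurd (by exact_mod_cast h3) hp
    · exact h3

theorem modVec_mem (k p : ℕ) [hp : Fact p.Prime] (a : Fin k → ZMod p) (w : Fin (k + 1) → ℤ) :
    a ∈ solSet k p (modVec k p (fun j => (a j).val) w) := by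
  unfold solSet
  rw [mem_filter]
  refine ⟨mem_univ _, ?_⟩
  have hxl : ∀ j : Fin k, modVec k p (fun j => (a j).val) w (Fin.castAdd 1 j) =
      w (Fin.castAdd 1 j) := by
    intro j
    rw [modVec, Fin.addCases_left]
  have hxr : modVec k p (fun j => (a j).val) w (Fin.natAdd k (0 : Fin 1)) =
      ∑ j : Fin k, ((a j).val : ℤ) * w (Fin.castAdd 1 j) + p * w (Fin.natAdd k (0 : Fin 1)) := by
    rw [modVec, Fin.addCases_right]
  rw [hxr]
  push_cast
  simp only [ZMod.natCast_val, ZMod.cast_id', id_eq, CharP.cast_eq_zero, zero_mul, add_zero]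
  refine Finset.sum_congr rfl fun j _ => ?_
  rw [hxl]

/-- the normalised minimum `γ(L)` of the lattice `L = A ℤⁿ` -/
noncomputable def gam {n : ℕ} (A : Matrix (Fin n) (Fin n) ℝ) : ℝ :=
  minSq A / |A.det| ^ ((2 : ℝ) / (n : ℝ))

/-- the sublattice inequality -/
theorem sub_ineq {n : ℕ} (hn : 0 < n) {A : Matrix (Fin n) (Fin n) ℝ} (hA : A.det ≠ 0) {t : ℝ}
    (ht : 1 < t) : t * gam A ≤ ((short A t).ncard : ℝ) ^ ((2 : ℝ) / n) * hermite n := by
  classical
  obtain ⟨k, rfl⟩ : ∃ k, n = k + 1 := ⟨n - 1, by omega⟩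
  have hmin := minSq_pos hn hA
  have hfin := short_finite hA t
  set F := hfin.toFinset with hF
  have hFc : (short A t).ncard = F.card := Set.ncard_eq_toFinset_card _ hfin
  have hmem : ∀ x, x ∈ F ↔ x ≠ 0 ∧ nsq A x < t * minSq A := by
    intro x
    rw [hF, Set.Finite.mem_toFinset]
    rfl
  have hsymm : ∀ x ∈ F, -x ∈ F := by
    intro x hx
    rw [hmem] at hx ⊢
    refine ⟨neg_ne_zero.2 hx.1, ?_⟩
    rw [nsq_neg]
    exact hx.2
  obtain ⟨w0, hw0, hw0m⟩ := exists_min hn hA
  have hw0F : w0 ∈ F := by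
    rw [hmem]
    refine ⟨hw0, ?_⟩
    rw [hw0m]
    nlinarith
  have hF2 : 2 ≤ F.card := by
    have hne : w0 ≠ -w0 := by
      intro h
      apply hw0
      ext i
      have h3 := congrFun h i
      simp only [Pi.neg_apply] at h3
      simp only [Pi.zero_apply]
      omega
    calc 2 = ({w0, -w0} : Finset (Fin (k + 1) → ℤ)).card := (Finset.card_pair hne).symm
      _ ≤ _ := Finset.card_le_card (by
        intro y hy
        rw [mem_insert, mem_singleton] at hy
        rcases hy with rfl | rfl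
        · exact hw0F
        · exact hsymm _ hw0F)
  obtain ⟨p, hp, hp1, hp2⟩ := Nat.exists_prime_lt_and_le_two_mul (F.card / 2) (by omega)
  have : Fact p.Prime := ⟨hp⟩
  have hFp : F.card < 2 * p := by omega
  have hpF : p ≤ F.card := by omega
  have h0 : ∀ x ∈ F, ∃ i, (x i : ZMod p) ≠ 0 := by
    intro x hx
    by_contra hcon
    push Not at hcon
    have hd : ∀ i, (p : ℤ) ∣ x i := fun i => (ZMod.intCast_zmod_eq_zero_iff_dvd _ _).1 (hcon i)
    choose y hy using hd
    have hxy : x = (p : ℤ) • y := by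
      ext i
      rw [hy i]
      simp
    rw [hmem] at hx
    have hy0 : y ≠ 0 := by
      rintro rfl
      apply hx.1
      rw [hxy]
      simp
    have hle : ((Finset.Icc (-(p : ℤ)) p).erase 0).card ≤ F.card := by
      apply Finset.card_le_card_of_injOn (fun j : ℤ => j • y)
      · intro j hj
        rw [Finset.mem_coe, Finset.mem_erase, Finset.mem_Icc] at hj
        rw [Finset.mem_coe, hmem]
        refine ⟨smul_ne_zero hj.1 hy0, lt_of_le_of_lt ?_ hx.2⟩
        rw [hxy, nsq_smul, nsq_smul]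
        apply mul_le_mul_of_nonneg_right _ (nsq_nonneg _ _)
        have : |(j : ℝ)| ≤ |((p : ℤ) : ℝ)| := by
          have h1 : |j| ≤ (p : ℤ) := abs_le.2 hj.2
          rw [abs_of_nonneg (by positivity : (0 : ℝ) ≤ ((p : ℤ) : ℝ))]
          exact_mod_cast h1
        exact sq_le_sq.2 this
      · intro i _ j _ hij
        exact smul_left_injective ℤ hy0 hij
    rw [Finset.card_erase_of_mem (by rw [Finset.mem_Icc]; constructor <;> simp),
      Int.card_Icc] at hle
    omega
  obtain ⟨a, ha⟩ := exists_avoid k p F hsymm h0 hFp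
  set B := A * modMat k p (fun j => (a j).val) with hB
  have hp0 : (0 : ℝ) < p := by exact_mod_cast hp.pos
  have hdet : B.det = A.det * p := by rw [hB, Matrix.det_mul, det_modMat]
  have hdet0 : B.det ≠ 0 := by rw [hdet]; exact mul_ne_zero hA hp0.ne'
  have hBmin : t * minSq A ≤ minSq B := by
    apply le_minSq hn
    intro w hw
    change t * minSq A ≤ nsq B w
    rw [hB, nsq_mul_modMat]
    by_contra hcon
    push Not at hcon
    exact ha _ ((hmem _).2 ⟨modVec_ne k p hp.ne_zero _ hw, hcon⟩) (modVec_mem k p a w)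
  have hle := le_hermite hn B hdet0
  have hdA : 0 < |A.det| := abs_pos.2 hA
  rw [hdet, abs_mul, abs_of_pos hp0, Real.mul_rpow hdA.le hp0.le, div_le_iff₀ (by positivity)] at hle
  have hh0 : 0 ≤ hermite (k + 1) := by
    refine le_trans ?_ (le_hermite hn A hA)
    exact div_nonneg (minSq_nonneg A) (by positivity)
  rw [gam, hFc, mul_div_assoc', div_le_iff₀ (by positivity)]
  calc t * minSq A ≤ minSq B := hBmin
    _ ≤ hermite (k + 1) * (|A.det| ^ ((2 : ℝ) / ((k + 1 : ℕ) : ℝ)) * (p : ℝ) ^ ((2 : ℝ) / ((k + 1 : ℕ) : ℝ))) := hle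
    _ = (p : ℝ) ^ ((2 : ℝ) / ((k + 1 : ℕ) : ℝ)) * hermite (k + 1) * |A.det| ^ ((2 : ℝ) / ((k + 1 : ℕ) : ℝ)) := by ring
    _ ≤ (F.card : ℝ) ^ ((2 : ℝ) / ((k + 1 : ℕ) : ℝ)) * hermite (k + 1) * |A.det| ^ ((2 : ℝ) / ((k + 1 : ℕ) : ℝ)) := by
        apply mul_le_mul_of_nonneg_right _ (by positivity)
        apply mul_le_mul_of_nonneg_right _ hh0
        apply Real.rpow_le_rpow hp0.le _ (by positivity)
        exact_mod_cast hpF

end Pool.Agent.TH220.HG
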