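import Pool.Agent.TH220.HG.Sparse

/-! Hermite's constant and the number of lattice points in balls, compared with the volume
(for MP_ef2672_gt). -/

open Matrix Filter MeasureTheory
open scoped Topology

namespace Pool.Agent.TH220.HG

open Pool.Agent.H160R3.Herm

/-- the volume of the ball whose squared radius is `t` times the minimum of `L = A ℤⁿ`, divided by
the covolume of `L` -/
noncomputable def ballVol {n : ℕ} (A : Matrix (Fin n) (Fin n) ℝ) (t : ℝ) : ℝ :=
  (volume (Metric.ball (0 : EuclideanSpace ℝ (Fin n)) (√(t * minSq A)))).toReal / |A.det|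

/-- elementary lower bound for the Gamma function at half integers -/
theorem gamma_half_lower (n : ℕ) :
    (√((n : ℝ) / (2 * Real.exp 1))) ^ n ≤ Real.Gamma ((n : ℝ) / 2 + 1) := by
  induction n using Nat.twoStepInduction with
  | zero => simp
  | one =>
    have h1 : Real.Gamma (((1 : ℕ) : ℝ) / 2 + 1) = √Real.pi / 2 := by
      rw [Nat.cast_one, Real.Gamma_add_one (by norm_num), Real.Gamma_one_half_eq]
      ring
    rw [h1, pow_one]
    have h2 : (17 / 10 : ℝ) ≤ √Real.pi := by
      rw [Real.le_sqrt' (by norm_num)]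
      linarith [Real.pi_gt_three]
    have h3 : √(((1 : ℕ) : ℝ) / (2 * Real.exp 1)) ≤ 1 / 2 := by
      rw [Real.sqrt_le_left (by norm_num)]
      have := Real.exp_one_gt_d9
      rw [Nat.cast_one, div_le_iff₀ (by positivity)]
      nlinarith
    linarith
  | more n ih _ =>
    have he : 0 < Real.exp 1 := Real.exp_pos 1
    have hG : Real.Gamma (((n + 2 : ℕ) : ℝ) / 2 + 1)
        = ((n : ℝ) / 2 + 1) * Real.Gamma ((n : ℝ) / 2 + 1) := by
      have : (((n + 2 : ℕ) : ℝ) / 2 + 1) = ((n : ℝ) / 2 + 1) + 1 := by push_cast; ring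
      rw [this, Real.Gamma_add_one (by positivity)]
    rw [hG, pow_add, Real.sq_sqrt (by positivity)]
    rcases Nat.eq_zero_or_pos n with h0 | hn
    · subst h0
      simp only [pow_zero, one_mul, Nat.cast_zero, zero_div, zero_add, Real.Gamma_one, mul_one]
      have := Real.exp_one_gt_d9
      push_cast
      rw [div_le_one (by positivity)]
      linarith
    · have hn' : (0 : ℝ) < n := by exact_mod_cast hn
      -- `(1 + 2/n)^(n/2) ≤ e`
      have h1 : √(((n + 2 : ℕ) : ℝ) / (2 * Real.exp 1)) ≤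
          Real.exp (1 / n) * √((n : ℝ) / (2 * Real.exp 1)) := by
        have e2 : Real.exp (1 / (n : ℝ)) = √(Real.exp (2 / n)) := by
          rw [show (2 / (n : ℝ)) = 1 / n + 1 / n by ring, Real.exp_add,
            Real.sqrt_mul_self (Real.exp_pos _).le]
        rw [e2, ← Real.sqrt_mul (Real.exp_pos _).le]
        apply Real.sqrt_le_sqrt
        have h3 : 2 / (n : ℝ) + 1 ≤ Real.exp (2 / n) := Real.add_one_le_exp _
        rw [mul_div_assoc']
        apply div_le_div_of_nonneg_right _ (by positivity)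
        push_cast
        calc (n : ℝ) + 2 = (2 / n + 1) * n := by field_simp; ring
          _ ≤ _ := mul_le_mul_of_nonneg_right h3 hn'.le
      have h2 : √(((n + 2 : ℕ) : ℝ) / (2 * Real.exp 1)) ^ n ≤
          Real.exp 1 * √((n : ℝ) / (2 * Real.exp 1)) ^ n := by
        refine (pow_le_pow_left₀ (Real.sqrt_nonneg _) h1 n).trans (le_of_eq ?_)
        rw [mul_pow, ← Real.exp_nat_mul]
        congr 2
        field_simp
      calc √(((n + 2 : ℕ) : ℝ) / (2 * Real.exp 1)) ^ n * (((n + 2 : ℕ) : ℝ) / (2 * Real.exp 1))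
          ≤ (Real.exp 1 * √((n : ℝ) / (2 * Real.exp 1)) ^ n) *
            (((n + 2 : ℕ) : ℝ) / (2 * Real.exp 1)) :=
            mul_le_mul_of_nonneg_right h2 (by positivity)
        _ = ((n : ℝ) / 2 + 1) * √((n : ℝ) / (2 * Real.exp 1)) ^ n := by
            push_cast
            field_simp
        _ ≤ _ := mul_le_mul_of_nonneg_left ih (by positivity)

theorem volume_ball_le (n : ℕ) (hn : 0 < n) (x : EuclideanSpace ℝ (Fin n)) (r : ℝ) (hr : 0 ≤ r) :
    volume (Metric.ball x r) ≤ ENNReal.ofReal ((√(2 * Real.pi * Real.exp 1 / n) * r) ^ n) := by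
  have hn' : (0 : ℝ) < n := by exact_mod_cast hn
  have : Nonempty (Fin n) := ⟨⟨0, hn⟩⟩
  rw [EuclideanSpace.volume_ball, Fintype.card_fin, ← ENNReal.ofReal_pow hr,
    ← ENNReal.ofReal_mul (by positivity)]
  apply ENNReal.ofReal_le_ofReal
  have h1 := gamma_half_lower n
  have h2 : 0 < √((n : ℝ) / (2 * Real.exp 1)) := Real.sqrt_pos.mpr (by positivity)
  rw [mul_pow, mul_comm]
  apply mul_le_mul_of_nonneg_right _ (by positivity)
  have e0 : √(2 * Real.pi * Real.exp 1 / n) ^ n
      = √Real.pi ^ n / √((n : ℝ) / (2 * Real.exp 1)) ^ n := by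
    rw [← div_pow, ← Real.sqrt_div Real.pi_pos.le]
    congr 2
    field_simp
  rw [e0]
  exact div_le_div_of_nonneg_left (by positivity) (by positivity) h1

theorem gam_rpow {n : ℕ} (hn : 0 < n) {A : Matrix (Fin n) (Fin n) ℝ} (hA : A.det ≠ 0) {c t : ℝ}
    (hc : 0 ≤ c) (ht : 0 ≤ t) :
    (√(c / n) * √(t * minSq A)) ^ n / |A.det| = (c * (t * gam A / n)) ^ ((n : ℝ) / 2) := by
  have hn' : (0 : ℝ) < n := by exact_mod_cast hn
  have hd : 0 < |A.det| := abs_pos.2 hA
  have hm := minSq_nonneg A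
  rw [← Real.sqrt_mul (by positivity), Real.sqrt_eq_rpow, ← Real.rpow_natCast,
    ← Real.rpow_mul (by positivity)]
  have e1 : c * (t * gam A / n) = (c / n * (t * minSq A)) / |A.det| ^ ((2 : ℝ) / n) := by
    rw [gam]; field_simp
  have e3 : (1 : ℝ) / 2 * n = n / 2 := by ring
  rw [e1, Real.div_rpow (by positivity) (by positivity), ← Real.rpow_mul hd.le, e3]
  have e2 : (2 : ℝ) / n * (n / 2) = 1 := by field_simp
  rw [e2, Real.rpow_one]

theorem ballVol_le {n : ℕ} (hn : 0 < n) {A : Matrix (Fin n) (Fin n) ℝ} (hA : A.det ≠ 0) {t : ℝ}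
    (ht : 0 ≤ t) :
    ballVol A t ≤ (2 * Real.pi * Real.exp 1 * (t * gam A / n)) ^ ((n : ℝ) / 2) := by
  rw [← gam_rpow hn hA (by positivity) ht, ballVol]
  apply div_le_div_of_nonneg_right _ (abs_nonneg _)
  apply ENNReal.toReal_le_of_le_ofReal (by positivity)
  exact volume_ball_le n hn 0 _ (Real.sqrt_nonneg _)

theorem le_ballVol {n : ℕ} (hn : 0 < n) {A : Matrix (Fin n) (Fin n) ℝ} (hA : A.det ≠ 0) {t : ℝ}
    (ht : 0 ≤ t) :
    (2 * Real.pi * Real.exp 1 * (t * gam A / n)) ^ ((n : ℝ) / 2) ≤ 3 * n * ballVol A t := by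
  have hn' : (0 : ℝ) < n := by exact_mod_cast hn
  rw [← gam_rpow hn hA (by positivity) ht, ballVol, mul_div_assoc']
  apply div_le_div_of_nonneg_right _ (abs_nonneg _)
  have h1 := Pool.Agent.H390R2.LP.volume_ball_ge n hn 0 (√(t * minSq A)) (Real.sqrt_nonneg _)
  have hfin : volume (Metric.ball (0 : EuclideanSpace ℝ (Fin n)) (√(t * minSq A))) ≠ ⊤ :=
    measure_ball_lt_top.ne
  have h2 := (ENNReal.ofReal_le_iff_le_toReal hfin).1 h1
  rw [div_le_iff₀ (by positivity)] at h2
  linarith

/-- an upper bound of `γ_n / n` bounds the volume of every ball by the number of lattice points -/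
theorem vol_le_count {n : ℕ} (hn : 0 < n) {C : ℝ} (hC : hermite n / n ≤ C)
    {A : Matrix (Fin n) (Fin n) ℝ} (hA : A.det ≠ 0) {t : ℝ} (ht : 1 < t) :
    ballVol A t ≤ (2 * Real.pi * Real.exp 1 * C) ^ ((n : ℝ) / 2) * (short A t).ncard := by
  have hn' : (0 : ℝ) < n := by exact_mod_cast hn
  have hpos : (0 : ℝ) ≤ hermite n / n := div_nonneg (hermite_nonneg' n) hn'.le
  have hC0 : 0 ≤ C := hpos.trans hC
  have hg := gam_nonneg A
  refine (ballVol_le hn hA (by linarith)).trans ?_
  have h1 : t * gam A / n ≤ ((short A t).ncard : ℝ) ^ ((2 : ℝ) / n) * C := by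
    have h2 := sub_ineq hn hA ht
    rw [div_le_iff₀ hn'] at hC ⊢
    calc t * gam A ≤ _ := h2
      _ ≤ ((short A t).ncard : ℝ) ^ ((2 : ℝ) / n) * (C * n) :=
          mul_le_mul_of_nonneg_left hC (by positivity)
      _ = _ := by ring
  have h0 : 0 ≤ t * gam A / n := div_nonneg (mul_nonneg (by linarith) hg) hn'.le
  calc (2 * Real.pi * Real.exp 1 * (t * gam A / n)) ^ ((n : ℝ) / 2)
      ≤ ((2 * Real.pi * Real.exp 1 * C) * ((short A t).ncard : ℝ) ^ ((2 : ℝ) / n)) ^ ((n : ℝ) / 2) := by
        apply Real.rpow_le_rpow (by positivity) _ (by positivity)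
        calc 2 * Real.pi * Real.exp 1 * (t * gam A / n)
            ≤ 2 * Real.pi * Real.exp 1 * (((short A t).ncard : ℝ) ^ ((2 : ℝ) / n) * C) :=
              mul_le_mul_of_nonneg_left h1 (by positivity)
          _ = _ := by ring
    _ = _ := by
        rw [Real.mul_rpow (by positivity) (by positivity), ← Real.rpow_mul (by positivity)]
        have e2 : (2 : ℝ) / n * (n / 2) = 1 := by field_simp
        rw [e2, Real.rpow_one]

/-- polynomial factors are absorbed -/
theorem three_n_le {q : ℝ} (hq : 1 < q) : ∀ᶠ n : ℕ in atTop, (3 * n : ℝ) ≤ q ^ n := by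
  have h := tendsto_pow_const_div_const_pow_of_one_lt 1 hq
  have h2 := h.eventually (gt_mem_nhds (show (0 : ℝ) < 1 / 3 by norm_num))
  filter_upwards [h2] with n hn
  rw [pow_one, div_lt_iff₀ (by positivity)] at hn
  linarith

/-- The believed upper bound `limsup γ_n / n ≤ 1 / (2πe)` is the statement that no lattice has
exponentially fewer points than the volume in a ball containing a nonzero lattice point. -/
theorem belief_iff :
    (∀ ε > 0, ∀ᶠ n : ℕ in atTop, hermite n / n ≤ 1 / (2 * Real.pi * Real.exp 1) + ε) ↔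
    (∀ ε > 0, ∀ᶠ n : ℕ in atTop, ∀ A : Matrix (Fin n) (Fin n) ℝ, A.det ≠ 0 → ∀ t : ℝ, 1 < t →
      ballVol A t ≤ (1 + ε) ^ n * (short A t).ncard) := by
  set c : ℝ := 2 * Real.pi * Real.exp 1 with hc
  have hc0 : 0 < c := by positivity
  constructor
  · intro h ε hε
    set δ : ℝ := ((1 + ε) ^ 2 - 1) / c with hδ
    have hδ0 : 0 < δ := div_pos (by nlinarith) hc0
    filter_upwards [h δ hδ0, eventually_gt_atTop 0] with n h1 hn A hA t ht
    have h2 := vol_le_count hn h1 hA ht
    have e : 2 * Real.pi * Real.exp 1 * (1 / c + δ) = (1 + ε) ^ 2 := by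
      rw [← hc, hδ]
      field_simp
      ring
    rw [e] at h2
    have e2 : ((1 + ε) ^ 2) ^ ((n : ℝ) / 2) = (1 + ε) ^ n := by
      rw [← Real.rpow_natCast, ← Real.rpow_mul (by linarith), ← Real.rpow_natCast]
      congr 1
      push_cast
      ring
    rwa [e2] at h2
  · intro h
    rw [upper_iff (1 / c) (by positivity)]
    intro ε hε
    -- choose `q > 1`, `η > 0` with `(q (1+η))² ≤ 1 + c ε`
    set s : ℝ := √(1 + c * ε) with hs
    have hs1 : 1 < s := by
      rw [hs]
      apply Real.lt_sqrt_of_sq_lt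
      nlinarith [mul_pos hc0 hε]
    have hs2 : s ^ 2 = 1 + c * ε := Real.sq_sqrt (by positivity)
    set q : ℝ := √s with hq
    have hq1 : 1 < q := by
      rw [hq]
      apply Real.lt_sqrt_of_sq_lt
      linarith
    have hq2 : q ^ 2 = s := Real.sq_sqrt (by linarith)
    filter_upwards [h (q - 1) (by linarith), eventually_gt_atTop 0, three_n_le hq1]
      with n h1 hn h3 A hA t ht
    have hn' : (0 : ℝ) < n := by exact_mod_cast hn
    have h4 := h1 A hA t ht
    rw [add_sub_cancel] at h4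
    have h5 := le_ballVol hn hA (show (0 : ℝ) ≤ t by linarith)
    have hg := gam_nonneg A
    have h6 : (c * (t * gam A / n)) ^ ((n : ℝ) / 2) ≤ s ^ n * (short A t).ncard := by
      calc _ ≤ 3 * n * ballVol A t := h5
        _ ≤ q ^ n * (q ^ n * (short A t).ncard) := by
            apply mul_le_mul h3 h4 _ (by positivity)
            unfold ballVol
            positivity
        _ = _ := by rw [← mul_assoc, ← pow_add, ← two_mul, pow_mul, hq2]
    have e : t * gam A / ((1 / c + ε) * n) = (c * (t * gam A / n)) / s ^ 2 := by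
      rw [hs2]
      field_simp
    have h0 : 0 ≤ c * (t * gam A / n) := by
      have : 0 < t := by linarith
      positivity
    rw [e, Real.div_rpow h0 (by positivity)]
    have e2 : (s ^ 2) ^ ((n : ℝ) / 2) = s ^ n := by
      rw [← Real.rpow_natCast, ← Real.rpow_mul (by linarith), ← Real.rpow_natCast]
      congr 1
      push_cast
      ring
    rw [e2, div_le_iff₀ (by positivity)]
    linarith

/-- the unconditional bound -/
theorem vol_uncond : ∀ᶠ n : ℕ in atTop, ∀ A : Matrix (Fin n) (Fin n) ℝ, A.det ≠ 0 →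
    ∀ t : ℝ, 1 < t → ballVol A t ≤ (13155 / 10000) ^ n * (short A t).ncard := by
  filter_upwards [Pool.Agent.W259.GP.hermite_bound Pool.Agent.W259.GP.s_main (1 / 1000000)
    (by norm_num), eventually_gt_atTop 0] with n h1 hn A hA t ht
  have h1' : hermite n / n ≤ 1 / Real.pi ^ 2 + 1 / 1000000 := h1
  refine (vol_le_count hn h1' hA ht).trans ?_
  apply mul_le_mul_of_nonneg_right _ (Nat.cast_nonneg _)
  have hpi := Real.pi_gt_d6
  have he := Real.exp_one_lt_d9
  have he0 := Real.exp_pos 1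
  have hp0 := Real.pi_pos
  have hpi' := Real.pi_lt_d6
  have h2 : 2 * Real.pi * Real.exp 1 * (1 / Real.pi ^ 2 + 1 / 1000000) ≤ (13155 / 10000) ^ 2 := by
    have e : 2 * Real.pi * Real.exp 1 * (1 / Real.pi ^ 2 + 1 / 1000000) =
        2 * Real.exp 1 / Real.pi + 2 * Real.pi * Real.exp 1 / 1000000 := by
      field_simp
    rw [e]
    have h3 : 2 * Real.exp 1 / Real.pi ≤ 17305124 / 10000000 := by
      rw [div_le_iff₀ hp0]
      nlinarith
    have h4 : 2 * Real.pi * Real.exp 1 / 1000000 ≤ 18 / 1000000 := by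
      apply div_le_div_of_nonneg_right _ (by norm_num)
      nlinarith
    have h5 : (17305124 / 10000000 + 18 / 1000000 : ℝ) ≤ (13155 / 10000) ^ 2 := by norm_num
    linarith
  calc (2 * Real.pi * Real.exp 1 * (1 / Real.pi ^ 2 + 1 / 1000000)) ^ ((n : ℝ) / 2)
      ≤ ((13155 / 10000 : ℝ) ^ 2) ^ ((n : ℝ) / 2) :=
        Real.rpow_le_rpow (by positivity) h2 (by positivity)
    _ = _ := by
        rw [← Real.rpow_natCast, ← Real.rpow_mul (by norm_num), ← Real.rpow_natCast]
        congr 1
        push_cast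
        ring

end Pool.Agent.TH220.HG
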